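import Pool.Agent.H817.RB.Proper
import Pool.Graph.R_pool_sql_team_seeded_3997aac3.Results.MP_df2bd8_gt.LorentzModuloChain

/-!
Domain quotients of the affine 3-space with parallel volume whose linear holonomy preserves a
quadratic form are complete.
-/

set_option autoImplicit false

namespace Pool.Agent.H817.RB

open Set Filter Topology Module
open Pool.Agent.W689.Mk

section
variable {E : Type} [NormedAddCommGroup E] [NormedSpace ℝ E] [FiniteDimensional ℝ E]

theorem exists_signed (h3 : finrank ℝ E = 3) (B : E →ₗ[ℝ] E →ₗ[ℝ] ℝ)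
    (hs : ∀ v w, B v w = B w v) (hker : LinearMap.ker B = ⊥) :
    ∃ (ε : ℝ) (W : Submodule ℝ E), finrank ℝ W = 2 ∧ ∀ w ∈ W, w ≠ 0 → 0 < ε * B w w := by
  classical
  obtain ⟨v, hv⟩ := LinearMap.BilinForm.exists_orthogonal_basis (B := B) ⟨hs⟩
  have hne : ∀ i, B (v i) (v i) ≠ 0 := by
    intro i h0
    have h1 : B (v i) = 0 := by
      apply v.ext
      intro j
      by_cases hij : i = j
      · rw [← hij, h0]
        rfl
      · exact hv hij
    have h2 : v i ∈ LinearMap.ker B := h1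
    rw [hker, Submodule.mem_bot] at h2
    exact v.ne_zero i h2
  obtain ⟨c, hc⟩ : ∃ c : Fin 3 ≃ Fin (finrank ℝ E), True := ⟨finCongr h3.symm, trivial⟩
  obtain ⟨s, hs'⟩ : ∃ s : Fin 3 → ℝ, s = fun i => B (v (c i)) (v (c i)) := ⟨_, rfl⟩
  have hs0 : ∀ i, s i ≠ 0 := fun i => by rw [hs']; exact hne _
  -- two of the signs agree
  have hpair : ∃ i j : Fin 3, i ≠ j ∧ ((0 < s i ∧ 0 < s j) ∨ (s i < 0 ∧ s j < 0)) := by
    rcases lt_or_gt_of_ne (hs0 0) with h0 | h0 <;> rcases lt_or_gt_of_ne (hs0 1) with h1 | h1 <;>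
      rcases lt_or_gt_of_ne (hs0 2) with h2 | h2
    · exact ⟨0, 1, by decide, Or.inr ⟨h0, h1⟩⟩
    · exact ⟨0, 1, by decide, Or.inr ⟨h0, h1⟩⟩
    · exact ⟨0, 2, by decide, Or.inr ⟨h0, h2⟩⟩
    · exact ⟨1, 2, by decide, Or.inl ⟨h1, h2⟩⟩
    · exact ⟨1, 2, by decide, Or.inr ⟨h1, h2⟩⟩
    · exact ⟨0, 2, by decide, Or.inl ⟨h0, h2⟩⟩
    · exact ⟨0, 1, by decide, Or.inl ⟨h0, h1⟩⟩
    · exact ⟨0, 1, by decide, Or.inl ⟨h0, h1⟩⟩
  obtain ⟨i, j, hij, hsgn⟩ := hpair
  have hli : LinearIndependent ℝ ![v (c i), v (c j)] := by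
    have h1 := v.linearIndependent.comp ![c i, c j] (by
      intro a b hab
      fin_cases a <;> fin_cases b
      · rfl
      · exact absurd (c.injective hab) hij
      · exact absurd (c.injective hab) hij.symm
      · rfl)
    have e : (⇑v ∘ ![c i, c j]) = ![v (c i), v (c j)] := by
      funext a
      fin_cases a <;> rfl
    rw [e] at h1
    exact h1
  have hfr : finrank ℝ (Submodule.span ℝ {v (c i), v (c j)}) = 2 := by
    have h1 := finrank_span_eq_card hli
    rw [Matrix.range_cons, Matrix.range_cons, Matrix.range_empty, Set.union_empty,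
      Set.singleton_union] at h1
    simpa using h1
  have hval : ∀ a b : ℝ, B (a • v (c i) + b • v (c j)) (a • v (c i) + b • v (c j)) =
      a ^ 2 * s i + b ^ 2 * s j := by
    intro a b
    have e1 : B (v (c i)) (v (c j)) = 0 := hv fun h => hij (c.injective h)
    have e2 : B (v (c j)) (v (c i)) = 0 := hv fun h => hij (c.injective h).symm
    rw [hs']
    simp only [map_add, map_smul, LinearMap.add_apply, LinearMap.smul_apply, smul_eq_mul, e1, e2]
    ring
  have hpos : ∀ a b : ℝ, a • v (c i) + b • v (c j) ≠ 0 → 0 < a ^ 2 + b ^ 2 := by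
    intro a b h
    by_contra hcon
    apply h
    have ha : a = 0 := by nlinarith [sq_nonneg a, sq_nonneg b]
    have hb : b = 0 := by nlinarith [sq_nonneg a, sq_nonneg b]
    rw [ha, hb, zero_smul, zero_smul, add_zero]
  rcases hsgn with ⟨h1, h2⟩ | ⟨h1, h2⟩
  · refine ⟨1, Submodule.span ℝ {v (c i), v (c j)}, hfr, fun w hw hw0 => ?_⟩
    obtain ⟨a, b, rfl⟩ := Submodule.mem_span_pair.1 hw
    rw [hval, one_mul]
    have := hpos a b hw0
    rcases eq_or_ne a 0 with ha | ha
    · have hb : 0 < b ^ 2 := by rw [ha] at this; simpa using this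
      have := mul_pos hb h2
      nlinarith [mul_nonneg (sq_nonneg a) h1.le]
    · have ha2 : 0 < a ^ 2 := by positivity
      have := mul_pos ha2 h1
      nlinarith [mul_nonneg (sq_nonneg b) h2.le]
  · refine ⟨-1, Submodule.span ℝ {v (c i), v (c j)}, hfr, fun w hw hw0 => ?_⟩
    obtain ⟨a, b, rfl⟩ := Submodule.mem_span_pair.1 hw
    rw [hval]
    have := hpos a b hw0
    rcases eq_or_ne a 0 with ha | ha
    · have hb : 0 < b ^ 2 := by rw [ha] at this; simpa using this
      have := mul_pos hb (neg_pos.2 h2)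
      nlinarith [mul_nonneg (sq_nonneg a) (neg_pos.2 h1).le]
    · have ha2 : 0 < a ^ 2 := by positivity
      have := mul_pos ha2 (neg_pos.2 h1)
      nlinarith [mul_nonneg (sq_nonneg b) (neg_pos.2 h2).le]

end

section
variable {X Γ E : Type} [TopologicalSpace X] [T2Space X] [SecondCountableTopology X]
  [ConnectedSpace X]
  [Group Γ] [MulAction Γ X] [NormedAddCommGroup E] [NormedSpace ℝ E] [FiniteDimensional ℝ E]
  {dev : X → E} {hol : Γ →* (E ≃ᵃ[ℝ] E)}

theorem form_complete (D : AffData X Γ E dev hol) (hinj : Function.Injective dev)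
    (h3 : finrank ℝ E = 3) (K : Subgroup Γ) (hK : K.FiniteIndex) (B : E →ₗ[ℝ] E →ₗ[ℝ] ℝ)
    (hs : ∀ v w, B v w = B w v) (hB : B ≠ 0)
    (hinv : ∀ γ ∈ K, ∀ v w, B (lin hol γ v) (lin hol γ w) = B v w) : IsHomeomorph dev := by
  by_cases hker : LinearMap.ker B = ⊥
  · obtain ⟨ε, W, hW, hpos⟩ := exists_signed h3 B hs hker
    refine (Pool.Agent.Results.MP_df2bd8_gt.LorentzModuloChain.result E X Γ dev hol D K hK
      (fun _ => ⊥) 0 ⟨fun x v hv => ?_, fun i hi => absurd hi (Nat.not_lt_zero i)⟩ ⊤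
      (Or.inr (Or.inl ⟨fun γ _ v _ => Submodule.mem_top, ε • B, W, le_top, ?_, ?_, ?_⟩))).2 (by simp)
    · rw [Submodule.mem_bot] at hv
      rw [hv]
      exact ⟨fun _ => x, continuousOn_const, rfl, fun t _ => by simp⟩
    · rw [finrank_top, h3, hW]
    · intro w hw hw0
      simpa using hpos w hw hw0
    · intro γ hγ v _
      simp only [LinearMap.smul_apply, smul_eq_mul]
      rw [hinv γ hγ]
  · refine reducible_complete D hinj h3 K hK (LinearMap.ker B) hker ?_ ?_
    · intro h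
      exact hB (LinearMap.ker_eq_top.1 h)
    · intro γ hγ w hw
      rw [LinearMap.mem_ker] at hw ⊢
      refine LinearMap.ext fun v => ?_
      have h1 : v = lin hol γ (lin hol γ⁻¹ v) := by
        rw [← lin_mul, mul_inv_cancel]
        simp only [lin, map_one]
        rfl
      rw [h1, hinv γ hγ, hw]
      rfl

end

end Pool.Agent.H817.RB
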