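import Pool.Agent.H817.RB.Cone
import Pool.Graph.R_pool_sql_team_seeded_2aa45f1a.Q138.Mk.Equi
import Pool.Graph.R_seed8.W689.Mk.Ht

/-!
Closed affine manifolds with parallel volume of dimension at least three have no representation in
the plane which is proper modulo scalars.
-/

set_option autoImplicit false

namespace Pool.Agent.H817.RB

open Set Filter Topology MeasureTheory Module
open Pool.Agent.W689.Mk Pool.Agent.Q138.Mk
open scoped NNReal ENNReal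

section
variable {X Γ E : Type} [TopologicalSpace X] [T2Space X]
  [Group Γ] [MulAction Γ X] [NormedAddCommGroup E] [NormedSpace ℝ E] [FiniteDimensional ℝ E]
  {dev : X → E} {hol : Γ →* (E ≃ᵃ[ℝ] E)}
  {W : Type} [NormedAddCommGroup W] [NormedSpace ℝ W]

/-- averages of orbits of linear actions are equivariant -/
theorem av_linmap {ρ : X → ℝ} (hρ : Wt Γ dev ρ) (A : Γ → W →ₗ[ℝ] W)
    (hA : ∀ γ δ w, A (γ * δ) w = A γ (A δ w)) (p : W) (δ : Γ) (x : X) :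
    av ρ (fun γ : Γ => A γ⁻¹ p) (δ • x) = A δ (av ρ (fun γ : Γ => A γ⁻¹ p) x) := by
  rw [av_shift]
  obtain ⟨F, hF⟩ := hρ.fin x
  have h1 : ∀ P : Γ → W, av ρ P x = ∑ γ ∈ F, ρ (γ • x) • P γ := fun P =>
    tsum_eq_sum fun γ hγ => by rw [hF γ hγ, zero_smul]
  rw [h1, h1, map_sum]
  refine Finset.sum_congr rfl fun γ _ => ?_
  rw [mul_inv_rev, inv_inv, hA, map_smul]

theorem no_proper_plane [SecondCountableTopology X] [Nonempty X]
    (D : AffData X Γ E dev hol) (h3 : 3 ≤ finrank ℝ E)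
    (M : Γ → Matrix (Fin 2) (Fin 2) ℝ) (hM1 : M 1 = 1) (hMm : ∀ γ δ, M (γ * δ) = M γ * M δ)
    (hfin : ∀ R : ℝ, {γ | nsq (M γ) ≤ R * |(M γ).det|}.Finite) : False := by
  classical
  let _ : MeasurableSpace E := borel E
  have _ : BorelSpace E := ⟨rfl⟩
  have hdet : ∀ γ, (M γ).det ≠ 0 := by
    intro γ h
    have h1 : M γ * M γ⁻¹ = 1 := by rw [← hMm, mul_inv_cancel, hM1]
    have h2 := congrArg Matrix.det h1
    rw [Matrix.det_mul, h, zero_mul, Matrix.det_one] at h2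
    exact zero_ne_one h2
  obtain ⟨S, hS⟩ : ∃ S : Γ → Sy →ₗ[ℝ] Sy, ∀ γ, S γ = sa (M γ) := ⟨fun γ => sa (M γ), fun _ => rfl⟩
  have hSm : ∀ γ δ w, S (γ * δ) w = S γ (S δ w) := by
    intro γ δ w
    rw [hS, hS, hS, hMm, sa_mul]
  have hS1 : ∀ w, S 1 w = w := by
    intro w
    rw [hS, hM1, sa_one]
  have hSC : ∀ γ, ∀ w ∈ Cn, S γ w ∈ Cn := by
    intro γ w hw
    rw [hS]
    exact sa_mem (hdet γ) hw
  -- the averaged map
  obtain ⟨ρ, hρ⟩ := exists_wt D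
  obtain ⟨h, hh⟩ : ∃ h : X → Sy, h = fun x => av ρ (fun γ : Γ => S γ⁻¹ ((1, 0, 1) : Sy)) x :=
    ⟨_, rfl⟩
  have hp : ((1, 0, 1) : Sy) ∈ Cn := by
    constructor <;> simp [dt]
  have hhC : ∀ x, h x ∈ Cn := fun x => by
    rw [hh]
    exact av_mem hρ convex_Cn (fun γ => hSC γ⁻¹ _ hp) x
  have hhL : LL dev h := by
    rw [hh]
    exact av_ll D hρ _
  have hhe : ∀ (γ : Γ) x, h (γ • x) = S γ (h x) := by
    intro γ x
    rw [hh]
    exact av_linmap hρ S hSm _ γ x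
  have hhc : Continuous h := hhL.continuous D.loc.continuous
  -- the radius
  obtain ⟨K0, hK0, hcov⟩ := D.cc
  obtain ⟨R, hR⟩ : ∃ R : ℝ, ∀ x ∈ K0, tr (h x) ^ 2 / dt (h x) < R := by
    have hc : Continuous fun x => tr (h x) ^ 2 / dt (h x) :=
      ((cont_tr.comp hhc).pow 2).div (cont_dt.comp hhc) (fun x => (hhC x).2.ne')
    obtain ⟨R, hR⟩ := (hK0.image hc).bddAbove
    refine ⟨R + 1, fun x hx => ?_⟩
    have h1 : tr (h x) ^ 2 / dt (h x) ≤ R := hR ⟨x, hx, rfl⟩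
    linarith
  -- local finiteness
  have hlf : ∀ w ∈ Cn, ∃ N ∈ 𝓝 w, N ⊆ Cn ∧ ∃ F : Finset Γ, ∀ y ∈ N, ∀ γ, γ ∉ F →
      wg R (S γ y) = 0 := by
    intro w hw
    obtain ⟨B, hB1, hB⟩ : ∃ B : ℝ, 1 ≤ B ∧ R * (tr w ^ 2 / dt w) < B :=
      ⟨max 1 (R * (tr w ^ 2 / dt w) + 1), le_max_left _ _, lt_max_of_lt_right (by linarith)⟩
    have hev : ∀ᶠ y in 𝓝 w, y ∈ Cn ∧ R * (tr y ^ 2 / dt y) < B := by
      refine (isOpen_Cn.eventually_mem hw).and ?_
      have hc : ContinuousAt (fun y => R * (tr y ^ 2 / dt y)) w :=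
        continuousAt_const.mul ((cont_tr.pow 2).continuousAt.div cont_dt.continuousAt hw.2.ne')
      exact hc.eventually_lt_const hB
    refine ⟨_, hev, fun y hy => hy.1, (hfin B).toFinset, fun y hy γ hγ => ?_⟩
    by_contra hne
    apply hγ
    rw [Set.Finite.mem_toFinset]
    rw [hS] at hne
    exact wg_bound (hdet γ) hy.1 hne hB1 hy.2.le
  obtain ⟨s, hs⟩ : ∃ s : Sy → ℝ, s = fun w => ∑' γ : Γ, wg R (S γ w) := ⟨_, rfl⟩
  obtain ⟨v, hv⟩ : ∃ v : Sy → E, v = fun w => ∑' γ : Γ, wg R (S γ w) • hol γ⁻¹ (0 : E) := ⟨_, rfl⟩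
  obtain ⟨f, hf⟩ : ∃ f : Sy → E, f = fun w => (s w)⁻¹ • v w := ⟨_, rfl⟩
  obtain ⟨C', hC'⟩ : ∃ C' : Set Sy, C' = {w | w ∈ Cn ∧ ∃ γ, 0 < wg R (S γ w)} := ⟨_, rfl⟩
  have hsum : ∀ w ∈ Cn, ∃ F : Finset Γ, (∀ γ, γ ∉ F → wg R (S γ w) = 0) ∧
      s w = ∑ γ ∈ F, wg R (S γ w) ∧ ∀ P : Γ → E, ∑' γ : Γ, wg R (S γ w) • P γ =
        ∑ γ ∈ F, wg R (S γ w) • P γ := by
    intro w hw
    obtain ⟨N, hN, -, F, hF⟩ := hlf w hw
    have hF' := hF w (mem_of_mem_nhds hN)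
    refine ⟨F, hF', ?_, fun P => ?_⟩
    · rw [hs]
      exact tsum_eq_sum fun γ hγ => hF' γ hγ
    · exact tsum_eq_sum fun γ hγ => by rw [hF' γ hγ, zero_smul]
  have hspos : ∀ w ∈ C', 0 < s w := by
    intro w hw
    rw [hC'] at hw
    obtain ⟨hw, γ0, h0⟩ := hw
    obtain ⟨F, hF, h1, -⟩ := hsum w hw
    rw [h1]
    refine Finset.sum_pos' (fun γ _ => wg_nonneg _ _) ⟨γ0, ?_, h0⟩
    by_contra hcon
    rw [hF γ0 hcon] at h0
    exact lt_irrefl _ h0
  have hhC' : ∀ x, h x ∈ C' := by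
    intro x
    rw [hC']
    refine ⟨hhC x, ?_⟩
    obtain ⟨γ, k, hk, rfl⟩ := hcov x
    refine ⟨γ⁻¹, ?_⟩
    rw [hhe, ← hSm, inv_mul_cancel, hS1]
    exact wg_pos (hR k hk)
  -- smoothness
  have hsm : ∀ w ∈ C', ContDiffAt ℝ 1 f w := by
    intro w hw
    have hpos := hspos w hw
    have hwC : w ∈ Cn := by
      rw [hC'] at hw
      exact hw.1
    obtain ⟨N, hN, hNC, F, hF⟩ := hlf w hwC
    have hS' : ∀ γ, ContDiffAt ℝ 1 (fun y => wg R (S γ y)) w := by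
      intro γ
      have h1 : ContDiff ℝ 1 (S γ) := (LinearMap.toContinuousLinearMap (S γ)).contDiff
      exact (wg_contDiffAt R (hSC γ w hwC)).comp w h1.contDiffAt
    have h1 : f =ᶠ[𝓝 w] fun y => (∑ γ ∈ F, wg R (S γ y))⁻¹ •
        ∑ γ ∈ F, wg R (S γ y) • hol γ⁻¹ (0 : E) := by
      filter_upwards [hN] with y hy
      rw [hf, hs, hv]
      beta_reduce
      rw [tsum_eq_sum (s := F) fun γ hγ => hF y hy γ hγ,
        tsum_eq_sum (s := F) fun γ hγ => by rw [hF y hy γ hγ, zero_smul]]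
    refine ContDiffAt.congr_of_eventuallyEq ?_ h1
    refine ContDiffAt.smul (ContDiffAt.inv (ContDiffAt.sum fun γ _ => hS' γ) ?_)
      (ContDiffAt.sum fun γ _ => (hS' γ).smul contDiffAt_const)
    rw [hs] at hpos
    beta_reduce at hpos
    rw [tsum_eq_sum (s := F) fun γ hγ => hF w (mem_of_mem_nhds hN) γ hγ] at hpos
    exact hpos.ne'
  -- equivariance
  have hfe : ∀ δ, ∀ w ∈ C', f (S δ w) = hol δ (f w) := by
    intro δ w hw
    have hpos := hspos w hw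
    have hwC : w ∈ Cn := by
      rw [hC'] at hw
      exact hw.1
    have e1 : s (S δ w) = s w := by
      rw [hs]
      beta_reduce
      rw [← Equiv.tsum_eq (Equiv.mulRight δ) (fun γ : Γ => wg R (S γ w))]
      refine tsum_congr fun γ => ?_
      rw [← hSm]
      rfl
    have e2 : v (S δ w) = ∑' γ : Γ, wg R (S γ w) • hol (γ * δ⁻¹)⁻¹ (0 : E) := by
      rw [hv]
      beta_reduce
      rw [← Equiv.tsum_eq (Equiv.mulRight δ) (fun γ : Γ => wg R (S γ w) • hol (γ * δ⁻¹)⁻¹ (0 : E))]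
      refine tsum_congr fun γ => ?_
      rw [← hSm]
      show _ = wg R (S (γ * δ) w) • hol (γ * δ * δ⁻¹)⁻¹ (0 : E)
      rw [mul_inv_cancel_right]
    obtain ⟨F, hF, h1, h2⟩ := hsum w hwC
    have e3 : v (S δ w) = s w • hol δ 0 + (hol δ).linear (v w) := by
      rw [e2, h2]
      have h3 : ∀ γ : Γ, hol (γ * δ⁻¹)⁻¹ (0 : E) = hol δ 0 + (hol δ).linear (hol γ⁻¹ (0 : E)) := by
        intro γ
        rw [mul_inv_rev, inv_inv, map_mul, ← aff_eq]
        rfl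
      simp_rw [h3, smul_add, Finset.sum_add_distrib, ← Finset.sum_smul]
      rw [← h1]
      congr 1
      rw [hv]
      beta_reduce
      rw [h2, map_sum]
      refine Finset.sum_congr rfl fun γ _ => ?_
      exact ((hol δ).linear.map_smul _ _).symm
    rw [hf]
    beta_reduce
    rw [e1, e3, smul_add, smul_smul, inv_mul_cancel₀ hpos.ne', one_smul, aff_eq (hol δ)
      ((s w)⁻¹ • v w)]
    congr 1
    exact ((hol δ).linear.map_smul _ _).symm
  -- homogeneity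
  have hfh : ∀ t : ℝ, 0 < t → ∀ w, f (t • w) = f w := by
    intro t ht w
    have e1 : ∀ γ, wg R (S γ (t • w)) = wg R (S γ w) := by
      intro γ
      rw [map_smul, wg_smul R ht]
    rw [hf, hs, hv]
    simp only [e1]
  have hChom : ∀ t : ℝ, 0 < t → ∀ w ∈ C', t • w ∈ C' := by
    intro t ht w hw
    rw [hC'] at hw ⊢
    obtain ⟨⟨h1, h2⟩, γ, hγ⟩ := hw
    refine ⟨⟨?_, ?_⟩, γ, ?_⟩
    · simp only [Prod.smul_fst, smul_eq_mul]
      positivity
    · have e : dt (t • w) = t ^ 2 * dt w := by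
        unfold dt
        simp only [Prod.smul_fst, Prod.smul_snd, smul_eq_mul]
        ring
      rw [e]
      positivity
    · rw [map_smul, wg_smul R ht]
      exact hγ
  -- the equivariant map
  have hFL : LL dev (fun x => f (h x)) := by
    refine hhL.comp D.loc.continuous fun x => ?_
    obtain ⟨K, V, hV, hK⟩ := (hsm (h x) (hhC' x)).exists_lipschitzOnWith
    refine ⟨V, hV, K, K.2, fun y hy z hz => ?_⟩
    have h1 := hK.dist_le_mul _ hy _ hz
    rwa [dist_eq_norm, dist_eq_norm] at h1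
  have hpos := range_pos (μH[finrank ℝ E] : Measure E) D hFL fun γ x => by
    rw [hhe, hfe γ _ (hhC' x)]
  apply hpos
  obtain ⟨U, hU⟩ : ∃ U : Set (ℝ × ℝ), U = {q | ((1, q.1, q.2) : Sy) ∈ C'} := ⟨_, rfl⟩
  obtain ⟨g, hg⟩ : ∃ g : ℝ × ℝ → E, g = fun q => f ((1, q.1, q.2) : Sy) := ⟨_, rfl⟩
  have hsub : range (fun x => f (h x)) ⊆ g '' U := by
    rintro _ ⟨x, rfl⟩
    have ha : 0 < (h x).1 := (hhC x).1
    have e : ((1, (h x).1⁻¹ * (h x).2.1, (h x).1⁻¹ * (h x).2.2) : Sy) = (h x).1⁻¹ • h x := by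
      ext
      · simp only [Prod.smul_fst, smul_eq_mul]
        rw [inv_mul_cancel₀ ha.ne']
      · simp
      · simp
    refine ⟨((h x).1⁻¹ * (h x).2.1, (h x).1⁻¹ * (h x).2.2), ?_, ?_⟩
    · rw [hU]
      show ((1, (h x).1⁻¹ * (h x).2.1, (h x).1⁻¹ * (h x).2.2) : Sy) ∈ C'
      rw [e]
      exact hChom _ (inv_pos.2 ha) _ (hhC' x)
    · rw [hg]
      show f ((1, (h x).1⁻¹ * (h x).2.1, (h x).1⁻¹ * (h x).2.2) : Sy) = f (h x)
      rw [e, hfh _ (inv_pos.2 ha)]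
  have hdim : dimH (g '' U) ≤ 2 := by
    have h1 : dimH (g '' U) ≤ dimH U := by
      refine dimH_image_le_of_locally_lipschitzOn fun q hq => ?_
      have hq' : ((1, q.1, q.2) : Sy) ∈ C' := by
        rw [hU] at hq
        exact hq
      have h2 : ContDiffAt ℝ 1 g q := by
        rw [hg]
        have h4 : ContDiff ℝ 1 (fun q : ℝ × ℝ => ((1, q.1, q.2) : Sy)) := by fun_prop
        exact (hsm _ hq').comp q h4.contDiffAt
      obtain ⟨K, V, hV, hK⟩ := h2.exists_lipschitzOnWith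
      exact ⟨K, V, mem_nhdsWithin_of_mem_nhds hV, hK⟩
    refine h1.trans ((dimH_mono (subset_univ U)).trans ?_)
    rw [Real.dimH_univ_eq_finrank]
    simp
  refine measure_mono_null hsub ?_
  have h5 : dimH (g '' U) < ((finrank ℝ E : ℝ≥0) : ℝ≥0∞) := by
    refine hdim.trans_lt ?_
    have : ((2 : ℕ) : ℝ≥0∞) < ((finrank ℝ E : ℕ) : ℝ≥0∞) := by
      exact_mod_cast (show 2 < finrank ℝ E by omega)
    simpa using this
  have h6 := measure_zero_of_dimH_lt (μ := (μH[((finrank ℝ E : ℝ≥0) : ℝ)] : Measure E))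
    Measure.AbsolutelyContinuous.rfl h5
  simpa using h6

end

end Pool.Agent.H817.RB
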