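import Pool.Agent.H817.RB.Block

/-!
Reducible linear holonomy in dimension three with a non proper block gives a nontrivial abelian
normal subgroup of the holonomy.
-/

set_option autoImplicit false

namespace Pool.Agent.H817.RB

open Set Filter Topology Module
open Pool.Agent.W689.Mk

theorem mapp {V : Type*} [NormedAddCommGroup V] [NormedSpace ℝ V] (S T : V →L[ℝ] V) (v : V) :
    (S * T) v = S (T v) := rfl

/-- a splitting of the space into a plane and a line -/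
structure Spl {E : Type} [NormedAddCommGroup E] [NormedSpace ℝ E] (i1 : (Fin 2 → ℝ) →ₗ[ℝ] E)
    (i2 : ℝ →ₗ[ℝ] E) (p1 : E →ₗ[ℝ] (Fin 2 → ℝ)) (p2 : E →ₗ[ℝ] ℝ) : Prop where
  s : ∀ v, i1 (p1 v) + i2 (p2 v) = v
  a : ∀ u, p1 (i1 u) = u
  b : ∀ t, p2 (i2 t) = t
  c : ∀ t, p1 (i2 t) = 0
  d : ∀ u, p2 (i1 u) = 0

section
variable {Γ E : Type} [Group Γ] [NormedAddCommGroup E] [NormedSpace ℝ E]
  [FiniteDimensional ℝ E] {hol : Γ →* (E ≃ᵃ[ℝ] E)}

/-- the homogeneous representation -/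
noncomputable def hom (hol : Γ →* (E ≃ᵃ[ℝ] E)) (γ : Γ) : (E × ℝ) →L[ℝ] (E × ℝ) :=
  LinearMap.toContinuousLinearMap
    { toFun := fun v => ((hol γ).linear v.1 + v.2 • hol γ 0, v.2)
      map_add' := fun v w => by
        ext1
        · simp only [Prod.fst_add, Prod.snd_add, map_add, add_smul]
          abel
        · simp
      map_smul' := fun c v => by
        ext1
        · simp only [Prod.smul_fst, Prod.smul_snd, map_smul, smul_add, smul_smul, smul_eq_mul,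
            RingHom.id_apply]
        · simp }

theorem hom_apply (γ : Γ) (v : E × ℝ) : hom hol γ v = ((hol γ).linear v.1 + v.2 • hol γ 0, v.2) :=
  rfl

omit [FiniteDimensional ℝ E] in
theorem aff0 (γ : Γ) (v : E) : hol γ v = (hol γ).linear v + hol γ 0 := by
  have h := (hol γ).map_vadd 0 v
  rw [vadd_eq_add, vadd_eq_add, add_zero] at h
  exact h

theorem hom_one' (γ : Γ) (v : E) : (hom hol γ (v, 1)).1 = hol γ v := by
  rw [hom_apply, aff0 γ v]
  simp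

theorem hom_inj {γ δ : Γ} : hom hol γ = hom hol δ ↔ hol γ = hol δ := by
  constructor
  · intro h
    refine AffineEquiv.ext fun v => ?_
    rw [← hom_one', ← hom_one', h]
  · intro h
    refine ContinuousLinearMap.ext fun v => ?_
    rw [hom_apply, hom_apply, h]

theorem hom_mul (γ δ : Γ) : hom hol (γ * δ) = hom hol γ * hom hol δ := by
  refine ContinuousLinearMap.ext fun v => ?_
  rw [mapp, hom_apply, hom_apply, hom_apply]
  refine Prod.ext ?_ rfl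
  simp only
  have h1 : (hol (γ * δ)).linear v.1 = (hol γ).linear ((hol δ).linear v.1) := lin_mul γ δ v.1
  have h2 : hol (γ * δ) 0 = (hol γ).linear (hol δ 0) + hol γ 0 := by
    rw [map_mul, ← aff0]
    rfl
  rw [h1, h2, map_add, map_smul, smul_add]
  abel

theorem hom_one : hom hol (1 : Γ) = 1 := by
  refine ContinuousLinearMap.ext fun v => ?_
  rw [hom_apply]
  refine Prod.ext ?_ rfl
  simp only [map_one]
  show v.1 + v.2 • (0 : E) = v.1
  simp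

/-- the homogeneous representation as a homomorphism to the units -/
noncomputable def tau (hol : Γ →* (E ≃ᵃ[ℝ] E)) : Γ →* ((E × ℝ) →L[ℝ] (E × ℝ))ˣ :=
  MonoidHom.toHomUnits { toFun := hom hol, map_one' := hom_one, map_mul' := hom_mul }

theorem tau_apply (γ : Γ) : ((tau hol γ : ((E × ℝ) →L[ℝ] (E × ℝ))ˣ) : (E × ℝ) →L[ℝ] (E × ℝ)) =
    hom hol γ := rfl

theorem tau_eq_iff {γ δ : Γ} : tau hol γ = tau hol δ ↔ hol γ = hol δ := by
  rw [← Units.val_inj, tau_apply, tau_apply, hom_inj]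

theorem tau_one_iff {γ : Γ} : tau hol γ = 1 ↔ hol γ = 1 := by
  have h := tau_eq_iff (hol := hol) (γ := γ) (δ := 1)
  rwa [map_one, map_one] at h

end

section
variable {X Γ E : Type} [TopologicalSpace X] [T2Space X]
  [Group Γ] [MulAction Γ X] [NormedAddCommGroup E] [NormedSpace ℝ E] [FiniteDimensional ℝ E]
  {dev : X → E} {hol : Γ →* (E ≃ᵃ[ℝ] E)}

theorem tau_discrete (D : AffData X Γ E dev hol) (hinj : Function.Injective dev) (x : X) :
    ∃ r : ℝ, 0 < r ∧ ∀ γ, ‖(tau hol γ : (E × ℝ) →L[ℝ] (E × ℝ)) - 1‖ < r → tau hol γ = 1 := by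
  classical
  obtain ⟨ε, hε, hfin⟩ := MA.finite_near D hinj x
  obtain ⟨C, hC⟩ : ∃ C : ℝ, C = ‖((dev x, 1) : E × ℝ)‖ + 1 := ⟨_, rfl⟩
  have hC0 : 0 < C := by rw [hC]; positivity
  have hnear : ∀ γ, ‖(tau hol γ : (E × ℝ) →L[ℝ] (E × ℝ)) - 1‖ < ε / C →
      ‖hol γ (dev x) - dev x‖ < ε := by
    intro γ hγ
    have h1 : hol γ (dev x) - dev x =
        (((tau hol γ : (E × ℝ) →L[ℝ] (E × ℝ)) - 1) (dev x, 1)).1 := by
      rw [ContinuousLinearMap.sub_apply, tau_apply, Prod.fst_sub, hom_one']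
      rfl
    rw [h1]
    refine (norm_fst_le _).trans_lt ?_
    refine (ContinuousLinearMap.le_opNorm _ _).trans_lt ?_
    rw [lt_div_iff₀ hC0] at hγ
    refine lt_of_le_of_lt ?_ hγ
    refine mul_le_mul_of_nonneg_left ?_ (norm_nonneg _)
    rw [hC]
    linarith
  obtain ⟨F, hF⟩ : ∃ F : Finset Γ, ∀ γ, γ ∈ F ↔ (‖hol γ (dev x) - dev x‖ < ε ∧ tau hol γ ≠ 1) := by
    have h2 : {γ : Γ | ‖hol γ (dev x) - dev x‖ < ε ∧ tau hol γ ≠ 1}.Finite :=
      Set.Finite.subset hfin fun γ hγ => hγ.1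
    refine ⟨h2.toFinset, fun γ => ?_⟩
    rw [Set.Finite.mem_toFinset]
    rfl
  have hmin : ∃ r : ℝ, 0 < r ∧ ∀ γ ∈ F, r ≤ ‖(tau hol γ : (E × ℝ) →L[ℝ] (E × ℝ)) - 1‖ := by
    rcases F.eq_empty_or_nonempty with h | h
    · exact ⟨1, one_pos, fun γ hγ => by rw [h] at hγ; exact absurd hγ (Finset.notMem_empty γ)⟩
    · obtain ⟨γ0, h0, h1⟩ := F.exists_min_image
        (fun γ => ‖(tau hol γ : (E × ℝ) →L[ℝ] (E × ℝ)) - 1‖) h
      refine ⟨_, ?_, h1⟩
      rw [norm_pos_iff, sub_ne_zero]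
      intro hcon
      exact ((hF γ0).1 h0).2 (Units.ext hcon)
  obtain ⟨r, hr, hr'⟩ := hmin
  refine ⟨min r (ε / C), lt_min hr (div_pos hε hC0), fun γ hγ => ?_⟩
  by_contra hcon
  have h1 := hr' γ ((hF γ).2 ⟨hnear γ (hγ.trans_le (min_le_right _ _)), hcon⟩)
  exact absurd (hγ.trans_le (min_le_left _ _)) (not_lt.2 h1)

theorem ker_finite (D : AffData X Γ E dev hol) (hinj : Function.Injective dev) (x : X) :
    {γ : Γ | hol γ = 1}.Finite := by
  obtain ⟨ε, hε, hfin⟩ := MA.finite_near D hinj x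
  refine hfin.subset fun γ hγ => ?_
  have h1 : hol γ = 1 := hγ
  show ‖hol γ (dev x) - dev x‖ < ε
  rw [h1]
  simpa using hε

/-- the plane block of the linear holonomy -/
noncomputable def blk (hol : Γ →* (E ≃ᵃ[ℝ] E)) (i1 : (Fin 2 → ℝ) →ₗ[ℝ] E)
    (p1 : E →ₗ[ℝ] (Fin 2 → ℝ)) (γ : Γ) : Matrix (Fin 2) (Fin 2) ℝ :=
  LinearMap.toMatrix' (p1.comp (((hol γ).linear : E →ₗ[ℝ] E).comp i1))

theorem blk_mulVec (i1 : (Fin 2 → ℝ) →ₗ[ℝ] E) (p1 : E →ₗ[ℝ] (Fin 2 → ℝ)) (γ : Γ)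
    (u : Fin 2 → ℝ) : (blk hol i1 p1 γ).mulVec u = p1 (lin hol γ (i1 u)) := by
  unfold blk
  rw [← Matrix.toLin'_apply, Matrix.toLin'_toMatrix']
  rfl

theorem blk_one {i1 : (Fin 2 → ℝ) →ₗ[ℝ] E} {i2 : ℝ →ₗ[ℝ] E} {p1 : E →ₗ[ℝ] (Fin 2 → ℝ)}
    {p2 : E →ₗ[ℝ] ℝ} (S : Spl i1 i2 p1 p2) : blk hol i1 p1 (1 : Γ) = 1 := by
  apply Matrix.ext_of_mulVec_single
  intro i
  rw [blk_mulVec, Matrix.one_mulVec]
  have h : lin hol (1 : Γ) (i1 (Pi.single i 1)) = i1 (Pi.single i 1) := by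
    simp only [lin, map_one]
    rfl
  rw [h, S.a]

theorem blk_mul {i1 : (Fin 2 → ℝ) →ₗ[ℝ] E} {i2 : ℝ →ₗ[ℝ] E} {p1 : E →ₗ[ℝ] (Fin 2 → ℝ)}
    {p2 : E →ₗ[ℝ] ℝ} (S : Spl i1 i2 p1 p2)
    (h : (∀ (γ : Γ) u, p2 (lin hol γ (i1 u)) = 0) ∨ (∀ (γ : Γ) t, p1 (lin hol γ (i2 t)) = 0))
    (γ δ : Γ) : blk hol i1 p1 (γ * δ) = blk hol i1 p1 γ * blk hol i1 p1 δ := by
  apply Matrix.ext_of_mulVec_single
  intro i
  rw [← Matrix.mulVec_mulVec, blk_mulVec, blk_mulVec, blk_mulVec, lin_mul]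
  conv_lhs => rw [← S.s (lin hol δ (i1 (Pi.single i 1)))]
  have h1 : lin hol γ (i1 (p1 (lin hol δ (i1 (Pi.single i 1)))) +
      i2 (p2 (lin hol δ (i1 (Pi.single i 1))))) =
      lin hol γ (i1 (p1 (lin hol δ (i1 (Pi.single i 1))))) +
      lin hol γ (i2 (p2 (lin hol δ (i1 (Pi.single i 1))))) := map_add _ _ _
  rw [h1, map_add]
  rcases h with h | h
  · rw [h δ]
    simp
  · rw [h γ]
    simp

theorem chi_mul {i1 : (Fin 2 → ℝ) →ₗ[ℝ] E} {i2 : ℝ →ₗ[ℝ] E} {p1 : E →ₗ[ℝ] (Fin 2 → ℝ)}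
    {p2 : E →ₗ[ℝ] ℝ} (S : Spl i1 i2 p1 p2)
    (h : (∀ (γ : Γ) u, p2 (lin hol γ (i1 u)) = 0) ∨ (∀ (γ : Γ) t, p1 (lin hol γ (i2 t)) = 0))
    (γ δ : Γ) : p2 (lin hol (γ * δ) (i2 1)) = p2 (lin hol γ (i2 1)) * p2 (lin hol δ (i2 1)) := by
  rw [lin_mul]
  conv_lhs => rw [← S.s (lin hol δ (i2 1))]
  have h1 : lin hol γ (i1 (p1 (lin hol δ (i2 1))) + i2 (p2 (lin hol δ (i2 1)))) =
      lin hol γ (i1 (p1 (lin hol δ (i2 1)))) + lin hol γ (i2 (p2 (lin hol δ (i2 1)))) :=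
    map_add _ _ _
  have h2 : p2 (lin hol γ (i1 (p1 (lin hol δ (i2 1))))) = 0 := by
    rcases h with h | h
    · exact h γ _
    · rw [h δ]
      simp
  have h3 : i2 (p2 (lin hol δ (i2 1))) = p2 (lin hol δ (i2 1)) • i2 1 := by
    rw [← map_smul, smul_eq_mul, mul_one]
  have h4 : lin hol γ (p2 (lin hol δ (i2 1)) • i2 1) = p2 (lin hol δ (i2 1)) • lin hol γ (i2 1) :=
    map_smul _ _ _
  rw [h1, map_add, h2, zero_add, h3, h4, map_smul, smul_eq_mul, mul_comm]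

theorem chi_ne {i1 : (Fin 2 → ℝ) →ₗ[ℝ] E} {i2 : ℝ →ₗ[ℝ] E} {p1 : E →ₗ[ℝ] (Fin 2 → ℝ)}
    {p2 : E →ₗ[ℝ] ℝ} (S : Spl i1 i2 p1 p2)
    (h : (∀ (γ : Γ) u, p2 (lin hol γ (i1 u)) = 0) ∨ (∀ (γ : Γ) t, p1 (lin hol γ (i2 t)) = 0))
    (γ : Γ) : p2 (lin hol γ (i2 1)) ≠ 0 := by
  intro h0
  have h1 := chi_mul S h γ γ⁻¹
  have h2 : lin hol (1 : Γ) (i2 1) = i2 1 := by
    simp only [lin, map_one]
    rfl
  rw [mul_inv_cancel, h0, zero_mul, h2, S.b] at h1
  exact one_ne_zero h1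

theorem abelian_of_block (D : AffData X Γ E dev hol) (hinj : Function.Injective dev) (x : X)
    {i1 : (Fin 2 → ℝ) →ₗ[ℝ] E} {i2 : ℝ →ₗ[ℝ] E} {p1 : E →ₗ[ℝ] (Fin 2 → ℝ)}
    {p2 : E →ₗ[ℝ] ℝ} (S : Spl i1 i2 p1 p2)
    (h : (∀ (γ : Γ) u, p2 (lin hol γ (i1 u)) = 0) ∨ (∀ (γ : Γ) t, p1 (lin hol γ (i2 t)) = 0))
    (R : ℝ) (hinf : {γ | nsq (blk hol i1 p1 γ) ≤ R * |(blk hol i1 p1 γ).det|}.Infinite) :
    ∃ N : Subgroup Γ, N.Normal ∧ (∀ a ∈ N, ∀ b ∈ N, hol a * hol b = hol b * hol a) ∧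
      ∃ a ∈ N, hol a ≠ 1 := by
  -- infinitely many holonomies
  have hinf' : (tau hol '' {γ | nsq (blk hol i1 p1 γ) ≤ R * |(blk hol i1 p1 γ).det|}).Infinite := by
    intro hfin
    refine hinf (Set.Finite.of_finite_fibers (tau hol) hfin ?_)
    rintro _ ⟨δ, -, rfl⟩
    have h1 : ((fun γ : Γ => δ * γ) '' {γ : Γ | hol γ = 1}).Finite := (ker_finite D hinj x).image _
    refine h1.subset ?_
    rintro γ ⟨-, hγ⟩
    have h2 : tau hol γ = tau hol δ := hγ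
    refine ⟨δ⁻¹ * γ, ?_, by simp⟩
    show hol (δ⁻¹ * γ) = 1
    rw [← tau_one_iff, map_mul, map_inv, h2, inv_mul_cancel]
  have hm1 : blk hol i1 p1 (1 : Γ) = 1 := blk_one S
  have hmm := blk_mul (hol := hol) S h
  have hdet : ∀ γ, (blk hol i1 p1 γ).det ≠ 0 := by
    intro γ h0
    have h1 : blk hol i1 p1 γ * blk hol i1 p1 γ⁻¹ = 1 := by rw [← hmm, mul_inv_cancel, hm1]
    have h2 := congrArg Matrix.det h1
    rw [Matrix.det_mul, h0, zero_mul, Matrix.det_one] at h2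
    exact zero_ne_one h2
  obtain ⟨g, hg1, hg2⟩ := exists_seq (blk hol i1 p1) hm1 hmm (tau hol) R hinf'
  -- the idempotents
  obtain ⟨J, hJ⟩ : ∃ J : Matrix (Fin 2) (Fin 2) ℝ →ₗ[ℝ] ((E × ℝ) →L[ℝ] (E × ℝ)), ∀ m v,
      J m v = (i1 (m.mulVec (p1 v.1)), 0) := by
    refine ⟨{ toFun := fun m => LinearMap.toContinuousLinearMap
                { toFun := fun v => (i1 (m.mulVec (p1 v.1)), 0)
                  map_add' := fun v w => ?_
                  map_smul' := fun c v => ?_ }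
              map_add' := fun m n => ?_
              map_smul' := fun c m => ?_ }, fun m v => rfl⟩
    · rw [Prod.fst_add, map_add, Matrix.mulVec_add, map_add, Prod.mk_add_mk, add_zero]
    · rw [Prod.smul_fst, map_smul, Matrix.mulVec_smul, map_smul, Prod.smul_mk, smul_zero]
      rfl
    · refine ContinuousLinearMap.ext fun v => ?_
      show (i1 ((m + n).mulVec (p1 v.1)), (0 : ℝ)) = (i1 (m.mulVec (p1 v.1)), (0 : ℝ)) +
        (i1 (n.mulVec (p1 v.1)), (0 : ℝ))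
      rw [Matrix.add_mulVec, map_add, Prod.mk_add_mk, add_zero]
    · refine ContinuousLinearMap.ext fun v => ?_
      show (i1 ((c • m).mulVec (p1 v.1)), (0 : ℝ)) = c • (i1 (m.mulVec (p1 v.1)), (0 : ℝ))
      rw [Matrix.smul_mulVec, map_smul, Prod.smul_mk, smul_zero]
  obtain ⟨P1, hP1⟩ : ∃ P1 : (E × ℝ) →L[ℝ] (E × ℝ), P1 = J 1 := ⟨_, rfl⟩
  have hP1a : ∀ v, P1 v = (i1 (p1 v.1), 0) := by
    intro v
    rw [hP1, hJ, Matrix.one_mulVec]
  obtain ⟨P2, hP2⟩ : ∃ P2 : (E × ℝ) →L[ℝ] (E × ℝ), ∀ v, P2 v = (i2 (p2 v.1), 0) := by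
    refine ⟨LinearMap.toContinuousLinearMap
      (LinearMap.prod (i2.comp (p2.comp (LinearMap.fst ℝ E ℝ))) 0), fun v => rfl⟩
  obtain ⟨O, hO⟩ : ∃ O : (E × ℝ) →L[ℝ] (E × ℝ), ∀ v, O v = (0, v.2) := by
    refine ⟨LinearMap.toContinuousLinearMap (LinearMap.prod 0 (LinearMap.snd ℝ E ℝ)), fun v => rfl⟩
  have hI : Idem P1 P2 O := by
    constructor
    · refine ContinuousLinearMap.ext fun v => ?_
      show P1 v + P2 v + O v = v
      rw [hP1a, hP2, hO]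
      ext1
      · simp [S.s]
      · simp
    · refine ContinuousLinearMap.ext fun v => ?_
      rw [mapp, hP1a, hP1a]
      simp [S.a]
    · refine ContinuousLinearMap.ext fun v => ?_
      rw [mapp, hP2, hP2]
      simp [S.b]
    · refine ContinuousLinearMap.ext fun v => ?_
      rw [mapp, hO, hO]
    · refine ContinuousLinearMap.ext fun v => ?_
      rw [mapp, hP1a, hP2]
      simp [S.c]
    · refine ContinuousLinearMap.ext fun v => ?_
      rw [mapp, hP1a, hP2]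
      simp [S.d]
    · refine ContinuousLinearMap.ext fun v => ?_
      rw [mapp, hP1a, hO]
      simp
    · refine ContinuousLinearMap.ext fun v => ?_
      rw [mapp, hP1a, hO]
      simp
    · refine ContinuousLinearMap.ext fun v => ?_
      rw [mapp, hP2, hO]
      simp
    · refine ContinuousLinearMap.ext fun v => ?_
      rw [mapp, hP2, hO]
      simp
  -- blocks
  have b11 : ∀ γ, P1 * hom hol γ * P1 = J (blk hol i1 p1 γ) := by
    intro γ
    refine ContinuousLinearMap.ext fun v => ?_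
    rw [mapp, mapp, hP1a v, hom_apply, hP1a, hJ,
      blk_mulVec]
    simp
  have b22 : ∀ γ, P2 * hom hol γ * P2 = p2 (lin hol γ (i2 1)) • P2 := by
    intro γ
    refine ContinuousLinearMap.ext fun v => ?_
    rw [mapp, mapp, hP2 v, hom_apply, hP2]
    show _ = p2 (lin hol γ (i2 1)) • P2 v
    rw [hP2]
    have h3 : i2 (p2 v.1) = p2 v.1 • i2 1 := by rw [← map_smul, smul_eq_mul, mul_one]
    ext1
    · simp only [zero_smul, add_zero, Prod.smul_fst]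
      have i2r : ∀ t : ℝ, i2 t = t • i2 1 := fun t => by rw [← map_smul, smul_eq_mul, mul_one]
      rw [h3, map_smul, map_smul, map_smul, smul_smul, i2r (p2 ((hol γ).linear (i2 1))), smul_smul,
        mul_comm]
    · simp
  have b00 : ∀ γ, O * hom hol γ * O = O := by
    intro γ
    refine ContinuousLinearMap.ext fun v => ?_
    rw [mapp, mapp, hO v, hom_apply, hO]
  have b01 : ∀ γ, O * hom hol γ * P1 = 0 := by
    intro γ
    refine ContinuousLinearMap.ext fun v => ?_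
    rw [mapp, mapp, hP1a v, hom_apply, hO]
    simp
  have b02 : ∀ γ, O * hom hol γ * P2 = 0 := by
    intro γ
    refine ContinuousLinearMap.ext fun v => ?_
    rw [mapp, mapp, hP2 v, hom_apply, hO]
    simp
  -- the graded part
  obtain ⟨d, hd⟩ : ∃ d : ℕ → ((E × ℝ) →L[ℝ] (E × ℝ))ˣ, ∀ γ,
      Tendsto (fun n => (d n : (E × ℝ) →L[ℝ] (E × ℝ)) * hom hol γ * ((d n)⁻¹ : _ˣ)) atTop
        (𝓝 (P1 * hom hol γ * P1 + P2 * hom hol γ * P2 + O * hom hol γ * O)) := by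
    rcases h with h | h
    · obtain ⟨d, hd⟩ := hI.conj_limit
      refine ⟨d, fun γ => hd _ ?_ (b01 γ) (b02 γ)⟩
      refine ContinuousLinearMap.ext fun v => ?_
      rw [mapp, mapp, hP1a v, hom_apply, hP2]
      have := h γ (p1 v.1)
      simp [lin] at this ⊢
      rw [this]
      simp
    · obtain ⟨d, hd⟩ := hI.swap.conj_limit
      refine ⟨d, fun γ => ?_⟩
      rw [add_comm (P1 * hom hol γ * P1)]
      refine hd _ ?_ (b02 γ) (b01 γ)
      refine ContinuousLinearMap.ext fun v => ?_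
      rw [mapp, mapp, hP2 v, hom_apply, hP1a]
      have := h γ (p2 v.1)
      simp [lin] at this ⊢
      rw [this]
      simp
  obtain ⟨δ, hδ⟩ : ∃ δ : ℕ → Γ, δ = fun n => (g n)⁻¹ * g (n + 1) := ⟨_, rfl⟩
  have hu : ∀ n, ∃ u : ((E × ℝ) →L[ℝ] (E × ℝ))ˣ, (u : (E × ℝ) →L[ℝ] (E × ℝ)) =
      ((√|(blk hol i1 p1 (δ n)).det|)⁻¹) • P1 + ((p2 (lin hol (δ n) (i2 1)))⁻¹) • P2 + O := by
    intro n
    obtain ⟨u, hu, -⟩ := hI.unit
      (inv_ne_zero (Real.sqrt_pos.2 (abs_pos.2 (hdet (δ n)))).ne')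
      (inv_ne_zero (chi_ne S h (δ n)))
    exact ⟨u, hu⟩
  choose U hU using hu
  obtain ⟨N, hN1, hN2, a, ha, ha1⟩ := exists_abelian_normal_proj (tau hol) (tau_discrete D hinj x) d
    (fun γ => P1 * hom hol γ * P1 + P2 * hom hol γ * P2 + O * hom hol γ * O) hd δ U
    (fun n γ => by rw [hU]; exact hI.comm _ _ _) (by
      have h1 : ∀ n, (P1 * hom hol (δ n) * P1 + P2 * hom hol (δ n) * P2 + O * hom hol (δ n) * O) *
          (U n : (E × ℝ) →L[ℝ] (E × ℝ)) =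
          J ((√|(blk hol i1 p1 (δ n)).det|)⁻¹ • blk hol i1 p1 (δ n)) + P2 + O := by
        intro n
        rw [hU, hI.gr_mul, b11, b22, b00, smul_smul, inv_mul_cancel₀ (chi_ne S h (δ n)), one_smul,
          map_smul]
      simp_rw [h1]
      have h2 : Tendsto (fun n => J ((√|(blk hol i1 p1 (δ n)).det|)⁻¹ • blk hol i1 p1 (δ n)) +
          P2 + O) atTop (𝓝 (J 1 + P2 + O)) := by
        refine Tendsto.add_const _ (Tendsto.add_const _ ?_)
        have hc : Continuous J := LinearMap.continuous_of_finiteDimensional J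
        rw [hδ]
        exact (hc.tendsto 1).comp hg2
      rw [← hP1, hI.hs] at h2
      exact h2) (by
      intro n
      rw [hδ]
      simp only
      rw [map_mul, map_inv]
      intro hcon
      exact hg1 n (inv_mul_eq_one.1 hcon))
  refine ⟨N, hN1, fun b hb c hc => ?_, a, ha, ?_⟩
  · rw [← map_mul, ← map_mul, ← tau_eq_iff, map_mul, map_mul]
    exact hN2 b hb c hc
  · rw [← tau_one_iff.ne]
    exact ha1

end

end Pool.Agent.H817.RB
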