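import Mathlib

/-!
The cone of positive definite symmetric forms in two variables, with the action of two by two
matrices.
-/

set_option autoImplicit false

namespace Pool.Agent.H817.RB

open Set Filter Topology

/-- symmetric forms -/
abbrev Sy := ℝ × ℝ × ℝ

/-- action of a matrix on symmetric forms, normalised by the determinant -/
noncomputable def sa (m : Matrix (Fin 2) (Fin 2) ℝ) : Sy →ₗ[ℝ] Sy where
  toFun w := (|m.det|⁻¹ * (m 0 0 ^ 2 * w.1 + 2 * m 0 0 * m 0 1 * w.2.1 + m 0 1 ^ 2 * w.2.2),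
    |m.det|⁻¹ * (m 0 0 * m 1 0 * w.1 + (m 0 0 * m 1 1 + m 0 1 * m 1 0) * w.2.1 +
      m 0 1 * m 1 1 * w.2.2),
    |m.det|⁻¹ * (m 1 0 ^ 2 * w.1 + 2 * m 1 0 * m 1 1 * w.2.1 + m 1 1 ^ 2 * w.2.2))
  map_add' v w := by
    ext <;> simp only [Prod.fst_add, Prod.snd_add] <;> ring
  map_smul' c w := by
    ext <;> simp only [Prod.smul_fst, Prod.smul_snd, smul_eq_mul, RingHom.id_apply] <;> ring

theorem sa_apply (m : Matrix (Fin 2) (Fin 2) ℝ) (w : Sy) : sa m w =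
    (|m.det|⁻¹ * (m 0 0 ^ 2 * w.1 + 2 * m 0 0 * m 0 1 * w.2.1 + m 0 1 ^ 2 * w.2.2),
    |m.det|⁻¹ * (m 0 0 * m 1 0 * w.1 + (m 0 0 * m 1 1 + m 0 1 * m 1 0) * w.2.1 +
      m 0 1 * m 1 1 * w.2.2),
    |m.det|⁻¹ * (m 1 0 ^ 2 * w.1 + 2 * m 1 0 * m 1 1 * w.2.1 + m 1 1 ^ 2 * w.2.2)) := rfl

theorem sa_mul (m n : Matrix (Fin 2) (Fin 2) ℝ) (w : Sy) : sa (m * n) w = sa m (sa n w) := by
  simp only [sa_apply]
  have h : |(m * n).det|⁻¹ = |m.det|⁻¹ * |n.det|⁻¹ := by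
    rw [Matrix.det_mul, abs_mul, mul_inv]
  rw [h]
  simp only [Matrix.mul_apply, Fin.sum_univ_two]
  ext
  · simp only
    ring
  · simp only
    ring
  · simp only
    ring

theorem sa_one (w : Sy) : sa 1 w = w := by
  rw [sa_apply]
  ext <;> simp

/-- trace -/
def tr (w : Sy) : ℝ := w.1 + w.2.2

/-- determinant -/
def dt (w : Sy) : ℝ := w.1 * w.2.2 - w.2.1 ^ 2

theorem dt_sa {m : Matrix (Fin 2) (Fin 2) ℝ} (hm : m.det ≠ 0) (w : Sy) : dt (sa m w) = dt w := by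
  have h : |m.det|⁻¹ ^ 2 * m.det ^ 2 = 1 := by
    rw [← sq_abs m.det, ← mul_pow, inv_mul_cancel₀ (abs_ne_zero.2 hm), one_pow]
  unfold dt
  rw [sa_apply]
  simp only
  have h2 : m.det = m 0 0 * m 1 1 - m 0 1 * m 1 0 := Matrix.det_fin_two m
  have h3 : |m.det|⁻¹ ^ 2 * (m 0 0 * m 1 1 - m 0 1 * m 1 0) ^ 2 = 1 := by rw [← h2]; exact h
  linear_combination (w.1 * w.2.2 - w.2.1 ^ 2) * h3

/-- the cone of positive forms -/
def Cn : Set Sy := {w | 0 < w.1 ∧ 0 < dt w}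

theorem Cn_form {w : Sy} (hw : w ∈ Cn) {x y : ℝ} (h : x ≠ 0 ∨ y ≠ 0) :
    0 < w.1 * x ^ 2 + 2 * w.2.1 * x * y + w.2.2 * y ^ 2 := by
  obtain ⟨h1, h2⟩ := hw
  unfold dt at h2
  have h3 : 0 < w.1 * (w.1 * x ^ 2 + 2 * w.2.1 * x * y + w.2.2 * y ^ 2) := by
    have e : w.1 * (w.1 * x ^ 2 + 2 * w.2.1 * x * y + w.2.2 * y ^ 2) =
        (w.1 * x + w.2.1 * y) ^ 2 + (w.1 * w.2.2 - w.2.1 ^ 2) * y ^ 2 := by ring
    rw [e]
    by_cases hy : y = 0
    · have hx : x ≠ 0 := by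
        rcases h with h | h
        · exact h
        · exact absurd hy h
      rw [hy]
      have h5 : w.1 * x ≠ 0 := mul_ne_zero h1.ne' hx
      have e2 : (w.1 * x + w.2.1 * 0) ^ 2 + (w.1 * w.2.2 - w.2.1 ^ 2) * 0 ^ 2 = (w.1 * x) ^ 2 := by
        ring
      rw [e2]
      positivity
    · have hy2 : 0 < y ^ 2 := by positivity
      exact add_pos_of_nonneg_of_pos (sq_nonneg _) (mul_pos h2 hy2)
  exact pos_of_mul_pos_right h3 h1.le

theorem mem_Cn {w : Sy} (h : ∀ x y : ℝ, x ≠ 0 ∨ y ≠ 0 →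
    0 < w.1 * x ^ 2 + 2 * w.2.1 * x * y + w.2.2 * y ^ 2) : w ∈ Cn := by
  have h1 : 0 < w.1 := by
    have := h 1 0 (Or.inl one_ne_zero)
    simpa using this
  refine ⟨h1, ?_⟩
  have h2 := h (-w.2.1) w.1 (Or.inr h1.ne')
  have e : w.1 * (-w.2.1) ^ 2 + 2 * w.2.1 * (-w.2.1) * w.1 + w.2.2 * w.1 ^ 2 = w.1 * dt w := by
    unfold dt; ring
  rw [e] at h2
  exact pos_of_mul_pos_right h2 h1.le

theorem convex_Cn : Convex ℝ Cn := by
  intro v hv w hw s t hs ht hst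
  refine mem_Cn fun x y h => ?_
  have h1 := Cn_form hv h
  have h2 := Cn_form hw h
  have e : (s • v + t • w).1 * x ^ 2 + 2 * (s • v + t • w).2.1 * x * y +
      (s • v + t • w).2.2 * y ^ 2 =
      s * (v.1 * x ^ 2 + 2 * v.2.1 * x * y + v.2.2 * y ^ 2) +
      t * (w.1 * x ^ 2 + 2 * w.2.1 * x * y + w.2.2 * y ^ 2) := by
    simp only [Prod.fst_add, Prod.snd_add, Prod.smul_fst, Prod.smul_snd, smul_eq_mul]
    ring
  rw [e]
  rcases hs.eq_or_lt with hs0 | hs0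
  · have ht1 : t = 1 := by linarith
    rw [← hs0, ht1, zero_mul, zero_add, one_mul]
    exact h2
  · have := mul_pos hs0 h1
    have := mul_nonneg ht h2.le
    linarith

theorem sa_mem {m : Matrix (Fin 2) (Fin 2) ℝ} (hm : m.det ≠ 0) {w : Sy} (hw : w ∈ Cn) :
    sa m w ∈ Cn := by
  refine ⟨?_, by rw [dt_sa hm]; exact hw.2⟩
  rw [sa_apply]
  simp only
  refine mul_pos (inv_pos.2 (abs_pos.2 hm)) ?_
  have h : m 0 0 ≠ 0 ∨ m 0 1 ≠ 0 := by
    by_contra hcon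
    push Not at hcon
    apply hm
    rw [Matrix.det_fin_two, hcon.1, hcon.2]
    ring
  have h1 := Cn_form hw h
  have e : m 0 0 ^ 2 * w.1 + 2 * m 0 0 * m 0 1 * w.2.1 + m 0 1 ^ 2 * w.2.2 =
      w.1 * m 0 0 ^ 2 + 2 * w.2.1 * m 0 0 * m 0 1 + w.2.2 * m 0 1 ^ 2 := by ring
  rw [e]
  exact h1

theorem Cn_pos {w : Sy} (hw : w ∈ Cn) : 0 < w.2.2 := by
  have := Cn_form hw (x := 0) (y := 1) (Or.inr one_ne_zero)
  simpa using this

theorem tr_pos {w : Sy} (hw : w ∈ Cn) : 0 < tr w := add_pos hw.1 (Cn_pos hw)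

/-- the sum of the squares of the entries -/
def nsq (m : Matrix (Fin 2) (Fin 2) ℝ) : ℝ := m 0 0 ^ 2 + m 0 1 ^ 2 + m 1 0 ^ 2 + m 1 1 ^ 2

theorem form_ge {w : Sy} (hw : w ∈ Cn) (x y : ℝ) :
    dt w / tr w * (x ^ 2 + y ^ 2) ≤ w.1 * x ^ 2 + 2 * w.2.1 * x * y + w.2.2 * y ^ 2 := by
  have ht := tr_pos hw
  have h0 := hw.1
  rw [div_mul_eq_mul_div, div_le_iff₀ ht]
  unfold dt tr
  nlinarith [sq_nonneg (w.1 * x + w.2.1 * y), sq_nonneg (w.2.1 * x + w.2.2 * y)]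

theorem tr_sa {m : Matrix (Fin 2) (Fin 2) ℝ} (hm : m.det ≠ 0) {w : Sy} (hw : w ∈ Cn) :
    dt w / tr w * nsq m ≤ |m.det| * tr (sa m w) := by
  have h1 := form_ge hw (m 0 0) (m 0 1)
  have h2 := form_ge hw (m 1 0) (m 1 1)
  have h3 : |m.det| * |m.det|⁻¹ = 1 := mul_inv_cancel₀ (abs_ne_zero.2 hm)
  have h4 : |m.det| * tr (sa m w) = (w.1 * m 0 0 ^ 2 + 2 * w.2.1 * m 0 0 * m 0 1 +
      w.2.2 * m 0 1 ^ 2) + (w.1 * m 1 0 ^ 2 + 2 * w.2.1 * m 1 0 * m 1 1 + w.2.2 * m 1 1 ^ 2) := by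
    unfold tr
    rw [sa_apply]
    simp only
    linear_combination ((w.1 * m 0 0 ^ 2 + 2 * w.2.1 * m 0 0 * m 0 1 +
      w.2.2 * m 0 1 ^ 2) + (w.1 * m 1 0 ^ 2 + 2 * w.2.1 * m 1 0 * m 1 1 + w.2.2 * m 1 1 ^ 2)) * h3
  rw [h4]
  unfold nsq
  nlinarith

theorem cont_tr : Continuous tr := by unfold tr; fun_prop

theorem cont_dt : Continuous dt := by unfold dt; fun_prop

theorem isOpen_Cn : IsOpen Cn := by
  refine IsOpen.inter (isOpen_lt continuous_const continuous_fst)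
    (isOpen_lt continuous_const cont_dt)

/-- the weight: positive exactly near the centre of the cone -/
noncomputable def wg (R : ℝ) (w : Sy) : ℝ := expNegInvGlue (R - tr w ^ 2 / dt w)

theorem wg_nonneg (R : ℝ) (w : Sy) : 0 ≤ wg R w := expNegInvGlue.nonneg _

theorem wg_pos {R : ℝ} {w : Sy} (h : tr w ^ 2 / dt w < R) : 0 < wg R w :=
  expNegInvGlue.pos_of_pos (by linarith)

theorem wg_zero {R : ℝ} {w : Sy} (h : R ≤ tr w ^ 2 / dt w) : wg R w = 0 :=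
  expNegInvGlue.zero_of_nonpos (by linarith)

theorem wg_smul (R : ℝ) {t : ℝ} (ht : 0 < t) (w : Sy) : wg R (t • w) = wg R w := by
  unfold wg
  congr 2
  have h1 : tr (t • w) = t * tr w := by
    unfold tr; simp only [Prod.smul_fst, Prod.smul_snd, smul_eq_mul]; ring
  have h2 : dt (t • w) = t ^ 2 * dt w := by
    unfold dt; simp only [Prod.smul_fst, Prod.smul_snd, smul_eq_mul]; ring
  rw [h1, h2, mul_pow, mul_div_mul_left _ _ (by positivity)]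

theorem wg_contDiffAt (R : ℝ) {w : Sy} (hw : w ∈ Cn) : ContDiffAt ℝ 1 (wg R) w := by
  have h1 : ContDiff ℝ 1 tr := by unfold tr; fun_prop
  have h2 : ContDiff ℝ 1 dt := by unfold dt; fun_prop
  have h3 : ContDiff ℝ 1 expNegInvGlue := by
    have := expNegInvGlue.contDiff (n := 1)
    exact this
  unfold wg
  exact h3.contDiffAt.comp w (contDiffAt_const.sub
    ((h1.contDiffAt.pow 2).div h2.contDiffAt hw.2.ne'))

/-- if the weight is positive then the matrix is bounded up to scale -/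
theorem wg_bound {R : ℝ} {m : Matrix (Fin 2) (Fin 2) ℝ} (hm : m.det ≠ 0) {w : Sy} (hw : w ∈ Cn)
    (h : wg R (sa m w) ≠ 0) {B : ℝ} (hB1 : 1 ≤ B) (hB : R * (tr w ^ 2 / dt w) ≤ B) :
    nsq m ≤ B * |m.det| := by
  have h1 : tr (sa m w) ^ 2 / dt (sa m w) < R := by
    by_contra hcon
    exact h (wg_zero (not_lt.1 hcon))
  rw [dt_sa hm, div_lt_iff₀ hw.2] at h1
  have ht := tr_pos hw
  have hd : 0 < |m.det| := abs_pos.2 hm
  have h2 := tr_sa hm hw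
  have hn : 0 ≤ nsq m := by unfold nsq; positivity
  have hq : 0 < dt w / tr w := div_pos hw.2 ht
  have h3 : (dt w / tr w * nsq m) ^ 2 ≤ (|m.det| * tr (sa m w)) ^ 2 := by
    have : 0 ≤ dt w / tr w * nsq m := by positivity
    exact pow_le_pow_left₀ this h2 2
  have h4 : (dt w / tr w * nsq m) ^ 2 ≤ |m.det| ^ 2 * (R * dt w) := by
    calc _ ≤ (|m.det| * tr (sa m w)) ^ 2 := h3
      _ = |m.det| ^ 2 * tr (sa m w) ^ 2 := by ring
      _ ≤ |m.det| ^ 2 * (R * dt w) := by gcongr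
  have h5 : nsq m ^ 2 ≤ |m.det| ^ 2 * (R * (tr w ^ 2 / dt w)) := by
    have hdw := hw.2
    have e1 : nsq m ^ 2 = (dt w / tr w * nsq m) ^ 2 * (tr w ^ 2 / dt w ^ 2) := by
      field_simp
    have e2 : |m.det| ^ 2 * (R * (tr w ^ 2 / dt w)) = |m.det| ^ 2 * (R * dt w) *
        (tr w ^ 2 / dt w ^ 2) := by
      field_simp
    rw [e1, e2]
    gcongr
  have h6 : nsq m ^ 2 ≤ (B * |m.det|) ^ 2 := by
    calc nsq m ^ 2 ≤ |m.det| ^ 2 * (R * (tr w ^ 2 / dt w)) := h5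
      _ ≤ |m.det| ^ 2 * B := by gcongr
      _ ≤ |m.det| ^ 2 * (B * B) := by
          gcongr
          nlinarith
      _ = (B * |m.det|) ^ 2 := by ring
  exact le_of_sq_le_sq h6 (by positivity)

end Pool.Agent.H817.RB
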