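import Pool.Agent.H817.RB.Zass
import Pool.Agent.H817.RB.Cone
import Pool.Agent.H817.MA.Prop

/-!
Reducible linear holonomy in dimension three with a non proper block gives a nontrivial abelian
normal subgroup of the holonomy.
-/

set_option autoImplicit false

namespace Pool.Agent.H817.RB

open Set Filter Topology Module
open Pool.Agent.W689.Mk

section ring
variable {A : Type*} [NormedRing A] [NormedAlgebra ℝ A]

/-- three orthogonal idempotents with sum one -/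
structure Idem (P Q O : A) : Prop where
  hs : P + Q + O = 1
  hPP : P * P = P
  hQQ : Q * Q = Q
  hOO : O * O = O
  hPQ : P * Q = 0
  hQP : Q * P = 0
  hPO : P * O = 0
  hOP : O * P = 0
  hQO : Q * O = 0
  hOQ : O * Q = 0

theorem Idem.swap {P Q O : A} (h : Idem P Q O) : Idem Q P O :=
  ⟨by rw [add_comm Q P]; exact h.hs, h.hQQ, h.hPP, h.hOO, h.hQP, h.hPQ, h.hQO, h.hOQ, h.hPO, h.hOP⟩

theorem Idem.mul {P Q O : A} (h : Idem P Q O) (a b a' b' : ℝ) :
    (a • P + b • Q + O) * (a' • P + b' • Q + O) = (a * a') • P + (b * b') • Q + O := by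
  simp only [add_mul, mul_add, smul_mul_assoc, mul_smul_comm, h.hPP, h.hQQ, h.hOO, h.hPQ, h.hQP,
    h.hPO, h.hOP, h.hQO, h.hOQ, smul_zero, add_zero, zero_add, smul_smul]
  rw [mul_comm a' a, mul_comm b' b]

/-- the unit given by two scalars -/
theorem Idem.unit {P Q O : A} (h : Idem P Q O) {a b : ℝ} (ha : a ≠ 0) (hb : b ≠ 0) :
    ∃ u : Aˣ, (u : A) = a • P + b • Q + O ∧ ((u⁻¹ : Aˣ) : A) = a⁻¹ • P + b⁻¹ • Q + O := by
  refine ⟨⟨a • P + b • Q + O, a⁻¹ • P + b⁻¹ • Q + O, ?_, ?_⟩, rfl, rfl⟩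
  · rw [h.mul, mul_inv_cancel₀ ha, mul_inv_cancel₀ hb, one_smul, one_smul, h.hs]
  · rw [h.mul, inv_mul_cancel₀ ha, inv_mul_cancel₀ hb, one_smul, one_smul, h.hs]

theorem Idem.comm {P Q O : A} (h : Idem P Q O) (a b : ℝ) (T : A) :
    (a • P + b • Q + O) * (P * T * P + Q * T * Q + O * T * O) =
      (P * T * P + Q * T * Q + O * T * O) * (a • P + b • Q + O) := by
  have e1 : (a • P + b • Q + O) * (P * T * P + Q * T * Q + O * T * O) =
      a • (P * T * P) + b • (Q * T * Q) + O * T * O := by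
    simp only [add_mul, mul_add, smul_mul_assoc, ← mul_assoc, h.hPP, h.hQQ, h.hOO, h.hPQ, h.hQP,
      h.hPO, h.hOP, h.hQO, h.hOQ, smul_zero, add_zero, zero_add, zero_mul]
  have e2 : (P * T * P + Q * T * Q + O * T * O) * (a • P + b • Q + O) =
      a • (P * T * P) + b • (Q * T * Q) + O * T * O := by
    simp only [add_mul, mul_add, mul_smul_comm, mul_assoc, h.hPP, h.hQQ, h.hOO, h.hPQ, h.hQP,
      h.hPO, h.hOP, h.hQO, h.hOQ, smul_zero, add_zero, zero_add, mul_zero]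
  rw [e1, e2]

theorem Idem.gr_mul {P Q O : A} (h : Idem P Q O) (a b : ℝ) (T : A) :
    (P * T * P + Q * T * Q + O * T * O) * (a • P + b • Q + O) =
      a • (P * T * P) + b • (Q * T * Q) + O * T * O := by
  simp only [add_mul, mul_add, mul_smul_comm, mul_assoc, h.hPP, h.hQQ, h.hOO, h.hPQ, h.hQP,
    h.hPO, h.hOP, h.hQO, h.hOQ, smul_zero, add_zero, zero_add, mul_zero]

theorem Idem.conj_limit {P Q O : A} (h : Idem P Q O) :
    ∃ d : ℕ → Aˣ, ∀ T : A, Q * T * P = 0 → O * T * P = 0 → O * T * Q = 0 →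
      Tendsto (fun n => (d n : A) * T * ((d n)⁻¹ : Aˣ)) atTop
        (𝓝 (P * T * P + Q * T * Q + O * T * O)) := by
  obtain ⟨l, hl⟩ : ∃ l : ℕ → ℝ, l = fun n : ℕ => 1 / ((n : ℝ) + 1) := ⟨_, rfl⟩
  have hl0 : ∀ n, l n ≠ 0 := by
    intro n
    rw [hl]
    positivity
  have hlt : Tendsto l atTop (𝓝 0) := by
    rw [hl]
    exact tendsto_one_div_add_atTop_nhds_zero_nat
  have hu : ∀ n, ∃ u : Aˣ, (u : A) = (l n ^ 2) • P + (l n) • Q + O ∧
      ((u⁻¹ : Aˣ) : A) = (l n ^ 2)⁻¹ • P + (l n)⁻¹ • Q + O :=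
    fun n => h.unit (pow_ne_zero 2 (hl0 n)) (hl0 n)
  choose d hd hd' using hu
  refine ⟨d, fun T h1 h2 h3 => ?_⟩
  have e : ∀ n, (d n : A) * T * ((d n)⁻¹ : Aˣ) = (P * T * P + Q * T * Q + O * T * O) +
      (l n • (P * T * Q + Q * T * O) + (l n ^ 2) • (P * T * O)) := by
    intro n
    have hn := hl0 n
    have c1 : (l n ^ 2)⁻¹ * l n ^ 2 = 1 := inv_mul_cancel₀ (pow_ne_zero 2 hn)
    have c2 : (l n)⁻¹ * l n = 1 := inv_mul_cancel₀ hn
    have c3 : (l n)⁻¹ * l n ^ 2 = l n := by field_simp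
    rw [hd, hd']
    simp only [add_mul, mul_add, smul_mul_assoc, mul_smul_comm, h1, h2, h3, smul_zero, add_zero,
      zero_add, smul_add, smul_smul, c1, c2, c3, one_smul]
    abel
  simp_rw [e]
  have h4 : Tendsto (fun n => (P * T * P + Q * T * Q + O * T * O) +
      (l n • (P * T * Q + Q * T * O) + (l n ^ 2) • (P * T * O))) atTop
      (𝓝 ((P * T * P + Q * T * Q + O * T * O) +
        ((0 : ℝ) • (P * T * Q + Q * T * O) + ((0 : ℝ) ^ 2) • (P * T * O)))) :=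
    tendsto_const_nhds.add ((hlt.smul_const _).add ((hlt.pow 2).smul_const _))
  simpa using h4

end ring

theorem exists_seq {K B : Type*} [Group K] (M : K → Matrix (Fin 2) (Fin 2) ℝ) (hM1 : M 1 = 1)
    (hMm : ∀ γ δ, M (γ * δ) = M γ * M δ) (τ : K → B) (R : ℝ)
    (hinf : (τ '' {γ | nsq (M γ) ≤ R * |(M γ).det|}).Infinite) :
    ∃ γ : ℕ → K, (∀ n, τ (γ n) ≠ τ (γ (n + 1))) ∧
      Tendsto (fun n => (√|(M ((γ n)⁻¹ * γ (n + 1))).det|)⁻¹ • M ((γ n)⁻¹ * γ (n + 1))) atTop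
        (𝓝 1) := by
  have hdet : ∀ γ, (M γ).det ≠ 0 := by
    intro γ h
    have h1 : M γ * M γ⁻¹ = 1 := by rw [← hMm, mul_inv_cancel, hM1]
    have h2 := congrArg Matrix.det h1
    rw [Matrix.det_mul, h, zero_mul, Matrix.det_one] at h2
    exact zero_ne_one h2
  obtain ⟨S, hS⟩ : ∃ S, S = {γ | nsq (M γ) ≤ R * |(M γ).det|} := ⟨_, rfl⟩
  rw [← hS] at hinf
  obtain ⟨g⟩ : Nonempty (ℕ ↪ (τ '' S)) := ⟨hinf.natEmbedding⟩
  have hg : ∀ n, ∃ γ, γ ∈ S ∧ τ γ = (g n : B) := fun n => (g n).2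
  choose γ0 hγ0 hγ1 using hg
  obtain ⟨Nm, hNm⟩ : ∃ Nm : ℕ → Matrix (Fin 2) (Fin 2) ℝ, Nm = fun n =>
    (√|(M (γ0 n)).det|)⁻¹ • M (γ0 n) := ⟨_, rfl⟩
  have hsq : ∀ γ, 0 < √|(M γ).det| := fun γ => Real.sqrt_pos.2 (abs_pos.2 (hdet γ))
  have hnb : ∀ n, nsq (Nm n) ≤ R := by
    intro n
    have h1 := hγ0 n
    rw [hS] at h1
    have h1' : nsq (M (γ0 n)) ≤ R * |(M (γ0 n)).det| := h1
    have h2 : nsq (Nm n) = (|(M (γ0 n)).det|)⁻¹ * nsq (M (γ0 n)) := by
      rw [hNm]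
      unfold nsq
      simp only [Matrix.smul_apply, smul_eq_mul]
      have h3 : (√|(M (γ0 n)).det|)⁻¹ ^ 2 = (|(M (γ0 n)).det|)⁻¹ := by
        rw [inv_pow, Real.sq_sqrt (abs_nonneg _)]
      rw [← h3]
      ring
    rw [h2, inv_mul_le_iff₀ (abs_pos.2 (hdet _))]
    linarith [mul_comm R |(M (γ0 n)).det|]
  obtain ⟨C, hC⟩ : ∃ C : Set (Matrix (Fin 2) (Fin 2) ℝ), C = Set.pi Set.univ
    (fun _ => Set.pi Set.univ fun _ => Icc (-(R + 1)) (R + 1)) := ⟨_, rfl⟩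
  have hCc : IsCompact C := by
    rw [hC]
    exact isCompact_univ_pi fun _ => isCompact_univ_pi fun _ => isCompact_Icc
  have hmem : ∀ n, Nm n ∈ C := by
    intro n
    have h1 := hnb n
    have h2 : ∀ i j, (Nm n i j) ^ 2 ≤ R := by
      intro i j
      unfold nsq at h1
      fin_cases i <;> fin_cases j <;> simp only [Fin.zero_eta, Fin.mk_one, Fin.isValue] <;>
        nlinarith [sq_nonneg (Nm n 0 0), sq_nonneg (Nm n 0 1), sq_nonneg (Nm n 1 0),
          sq_nonneg (Nm n 1 1)]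
    rw [hC]
    intro i _ j _
    have h3 := h2 i j
    constructor <;> nlinarith [sq_nonneg (Nm n i j + 1), sq_nonneg (Nm n i j - 1)]
  have _ : FirstCountableTopology (Matrix (Fin 2) (Fin 2) ℝ) :=
    inferInstanceAs (FirstCountableTopology (Fin 2 → Fin 2 → ℝ))
  obtain ⟨N, hN, φ, hφ, hlim⟩ := hCc.tendsto_subseq hmem
  refine ⟨fun n => γ0 (φ n), fun n => ?_, ?_⟩
  · rw [hγ1, hγ1]
    intro h
    have h1 := g.injective (Subtype.ext h)
    exact absurd h1 (hφ (Nat.lt_succ_self n)).ne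
  have hNd : ∀ n, |(Nm n).det| = 1 := by
    intro n
    rw [hNm]
    simp only [Matrix.det_smul, Fintype.card_fin]
    rw [abs_mul, abs_pow, abs_of_pos (inv_pos.2 (hsq _)), inv_pow, Real.sq_sqrt (abs_nonneg _),
      inv_mul_cancel₀ (abs_ne_zero.2 (hdet _))]
  have hNdet : |N.det| = 1 := by
    have h1 : Tendsto (fun n => |(Nm (φ n)).det|) atTop (𝓝 |N.det|) := by
      have hc : Continuous fun m : Matrix (Fin 2) (Fin 2) ℝ => |m.det| :=
        (Continuous.matrix_det continuous_id).abs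
      exact (hc.tendsto N).comp hlim
    simp only [hNd] at h1
    exact (tendsto_nhds_unique h1 tendsto_const_nhds)
  have hNdet0 : N.det ≠ 0 := by
    intro h
    rw [h, abs_zero] at hNdet
    exact zero_ne_one hNdet
  obtain ⟨X, hX⟩ : ∃ X : ℕ → Matrix (Fin 2) (Fin 2) ℝ, X = fun n =>
    (√|(M ((γ0 (φ n))⁻¹ * γ0 (φ (n + 1)))).det|)⁻¹ • M ((γ0 (φ n))⁻¹ * γ0 (φ (n + 1))) := ⟨_, rfl⟩
  have e1 : ∀ n, Nm (φ n) * X n = Nm (φ (n + 1)) := by
    intro n
    rw [hX, hNm]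
    simp only
    have h1 : M (γ0 (φ (n + 1))) = M (γ0 (φ n)) * M ((γ0 (φ n))⁻¹ * γ0 (φ (n + 1))) := by
      rw [← hMm, mul_inv_cancel_left]
    have h2 : √|(M (γ0 (φ (n + 1)))).det| = √|(M (γ0 (φ n))).det| *
        √|(M ((γ0 (φ n))⁻¹ * γ0 (φ (n + 1)))).det| := by
      rw [h1, Matrix.det_mul, abs_mul, Real.sqrt_mul (abs_nonneg _)]
    rw [h2, mul_inv, Matrix.smul_mul, Matrix.mul_smul, smul_smul, ← h1]
  have e2 : ∀ n, X n = ((Nm (φ n)).det)⁻¹ • ((Nm (φ n)).adjugate * Nm (φ (n + 1))) := by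
    intro n
    have h1 : (Nm (φ n)).det ≠ 0 := by
      intro h
      have := hNd (φ n)
      rw [h, abs_zero] at this
      exact zero_ne_one this
    rw [← e1 n, ← Matrix.mul_assoc, Matrix.adjugate_mul, Matrix.smul_mul, Matrix.one_mul,
      smul_smul, inv_mul_cancel₀ h1, one_smul]
  have e3 : Tendsto X atTop (𝓝 1) := by
    have h1 : Tendsto (fun n => Nm (φ (n + 1))) atTop (𝓝 N) := hlim.comp (tendsto_add_atTop_nat 1)
    have h2 : Tendsto (fun n => (Nm (φ n)).adjugate) atTop (𝓝 N.adjugate) :=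
      ((Continuous.matrix_adjugate continuous_id).tendsto N).comp hlim
    have h3 : Tendsto (fun n => ((Nm (φ n)).det)⁻¹) atTop (𝓝 (N.det)⁻¹) :=
      (((Continuous.matrix_det continuous_id).tendsto N).comp hlim).inv₀ hNdet0
    have h4 : Tendsto (fun n => ((Nm (φ n)).det)⁻¹ • ((Nm (φ n)).adjugate * Nm (φ (n + 1)))) atTop
        (𝓝 ((N.det)⁻¹ • (N.adjugate * N))) := by
      refine h3.smul ?_
      have hc : Continuous fun p : Matrix (Fin 2) (Fin 2) ℝ × Matrix (Fin 2) (Fin 2) ℝ =>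
        p.1 * p.2 := continuous_fst.matrix_mul continuous_snd
      exact (hc.tendsto (N.adjugate, N)).comp (h2.prodMk_nhds h1)
    rw [Matrix.adjugate_mul, smul_smul, inv_mul_cancel₀ hNdet0, one_smul] at h4
    exact h4.congr fun n => (e2 n).symm
  rw [hX] at e3
  exact e3

end Pool.Agent.H817.RB
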