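import Pool.Agent.H817.RB.Reducible

/-!
Domain quotients of the affine 3-space with parallel volume whose linear holonomy is not proper
are complete.
-/

set_option autoImplicit false

namespace Pool.Agent.H817.RB

open Set Filter Topology Module
open Pool.Agent.W689.Mk

section
variable {X Γ E : Type} [TopologicalSpace X] [T2Space X]
  [Group Γ] [MulAction Γ X] [NormedAddCommGroup E] [NormedSpace ℝ E] [FiniteDimensional ℝ E]
  {dev : X → E} {hol : Γ →* (E ≃ᵃ[ℝ] E)}

/-- the linear holonomy as a continuous linear map -/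
noncomputable def ll (hol : Γ →* (E ≃ᵃ[ℝ] E)) (γ : Γ) : E →L[ℝ] E :=
  LinearMap.toContinuousLinearMap ((hol γ).linear : E →ₗ[ℝ] E)

theorem ll_apply (γ : Γ) (v : E) : ll hol γ v = lin hol γ v := rfl

theorem ll_mul (γ δ : Γ) : ll hol (γ * δ) = ll hol γ * ll hol δ :=
  ContinuousLinearMap.ext fun v => lin_mul γ δ v

theorem ll_one : ll hol (1 : Γ) = 1 := by
  refine ContinuousLinearMap.ext fun v => ?_
  rw [ll_apply]
  simp only [lin, map_one]
  rfl

theorem abelian_of_not_proper (D : AffData X Γ E dev hol) (hinj : Function.Injective dev) (x : X)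
    (R : ℝ) (hinf : {γ : Γ | ∀ v, ‖lin hol γ v‖ ≤ R * ‖v‖}.Infinite) :
    ∃ N : Subgroup Γ, N.Normal ∧ (∀ a ∈ N, ∀ b ∈ N, hol a * hol b = hol b * hol a) ∧
      ∃ a ∈ N, hol a ≠ 1 := by
  have hinf' : (tau hol '' {γ : Γ | ∀ v, ‖lin hol γ v‖ ≤ R * ‖v‖}).Infinite := by
    intro hfin
    refine hinf (Set.Finite.of_finite_fibers (tau hol) hfin ?_)
    rintro _ ⟨δ, -, rfl⟩
    have h1 : ((fun γ : Γ => δ * γ) '' {γ : Γ | hol γ = 1}).Finite := (ker_finite D hinj x).image _
    refine h1.subset ?_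
    rintro γ ⟨-, hγ⟩
    have h2 : tau hol γ = tau hol δ := hγ
    refine ⟨δ⁻¹ * γ, ?_, by simp⟩
    show hol (δ⁻¹ * γ) = 1
    rw [← tau_one_iff, map_mul, map_inv, h2, inv_mul_cancel]
  obtain ⟨g⟩ : Nonempty (ℕ ↪ (tau hol '' {γ : Γ | ∀ v, ‖lin hol γ v‖ ≤ R * ‖v‖})) :=
    ⟨hinf'.natEmbedding⟩
  have hg : ∀ n, ∃ γ : Γ, (∀ v, ‖lin hol γ v‖ ≤ R * ‖v‖) ∧ tau hol γ = (g n : ((E × ℝ) →L[ℝ] (E × ℝ))ˣ) :=
    fun n => (g n).2
  choose γ0 hγ0 hγ1 using hg
  have hR : ∀ n, ll hol (γ0 n) ∈ Metric.closedBall (0 : E →L[ℝ] E) (max R 0) := by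
    intro n
    rw [mem_closedBall_zero_iff]
    refine ContinuousLinearMap.opNorm_le_bound _ (le_max_right _ _) fun v => ?_
    exact (hγ0 n v).trans (mul_le_mul_of_nonneg_right (le_max_left _ _) (norm_nonneg _))
  obtain ⟨A, -, φ, hφ, hlim⟩ := (isCompact_closedBall (0 : E →L[ℝ] E) (max R 0)).tendsto_subseq hR
  have hdet : A.det ≠ 0 := by
    have h1 : Tendsto (fun n => |(ll hol (γ0 (φ n))).det|) atTop (𝓝 |A.det|) :=
      ((ContinuousLinearMap.continuous_det.abs).tendsto A).comp hlim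
    have h2 : ∀ n, |(ll hol (γ0 (φ n))).det| = 1 := fun n => D.unimod _
    simp only [h2] at h1
    have h3 : (1 : ℝ) = |A.det| := tendsto_nhds_unique tendsto_const_nhds h1
    intro h
    rw [h, abs_zero] at h3
    exact one_ne_zero h3
  obtain ⟨u, hu⟩ : ∃ u : (E →L[ℝ] E)ˣ, (u : E →L[ℝ] E) = A :=
    ⟨(A.toContinuousLinearEquivOfDetNeZero hdet).toUnit, rfl⟩
  obtain ⟨δ, hδ⟩ : ∃ δ : ℕ → Γ, δ = fun n => (γ0 (φ n))⁻¹ * γ0 (φ (n + 1)) := ⟨_, rfl⟩
  have hinv : Tendsto (fun n => ll hol (γ0 (φ n))⁻¹) atTop (𝓝 (Ring.inverse A)) := by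
    have h1 : ∀ γ : Γ, Ring.inverse (ll hol γ) = ll hol γ⁻¹ := by
      intro γ
      have h2 : ll hol γ = ((⟨ll hol γ, ll hol γ⁻¹, by rw [← ll_mul, mul_inv_cancel, ll_one],
        by rw [← ll_mul, inv_mul_cancel, ll_one]⟩ : (E →L[ℝ] E)ˣ) : E →L[ℝ] E) := rfl
      rw [h2, Ring.inverse_unit]
      rfl
    have h2 : ContinuousAt (Ring.inverse : (E →L[ℝ] E) → _) A := by
      rw [← hu]
      exact NormedRing.inverse_continuousAt u
    have h3 := h2.tendsto.comp hlim
    refine h3.congr fun n => ?_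
    exact h1 _
  have hlim1 : Tendsto (fun n => ll hol (δ n)) atTop (𝓝 1) := by
    have h1 : Tendsto (fun n => ll hol (γ0 (φ (n + 1)))) atTop (𝓝 A) :=
      hlim.comp (tendsto_add_atTop_nat 1)
    have h2 := hinv.mul h1
    have h3 : Ring.inverse A * A = 1 := by
      rw [← hu, Ring.inverse_unit, Units.inv_mul]
    rw [h3] at h2
    refine h2.congr fun n => ?_
    rw [hδ]
    simp only
    rw [ll_mul]
  -- the idempotents
  obtain ⟨P, hP⟩ : ∃ P : (E × ℝ) →L[ℝ] (E × ℝ), ∀ v, P v = (v.1, 0) :=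
    ⟨LinearMap.toContinuousLinearMap (LinearMap.prod (LinearMap.fst ℝ E ℝ) 0), fun v => rfl⟩
  obtain ⟨O, hO⟩ : ∃ O : (E × ℝ) →L[ℝ] (E × ℝ), ∀ v, O v = (0, v.2) :=
    ⟨LinearMap.toContinuousLinearMap (LinearMap.prod 0 (LinearMap.snd ℝ E ℝ)), fun v => rfl⟩
  have hI : Idem P 0 O := by
    constructor
    · refine ContinuousLinearMap.ext fun v => ?_
      show P v + 0 + O v = v
      rw [hP, hO]
      ext1 <;> simp
    · refine ContinuousLinearMap.ext fun v => ?_
      rw [mapp, hP, hP]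
    · rw [mul_zero]
    · refine ContinuousLinearMap.ext fun v => ?_
      rw [mapp, hO, hO]
    · rw [mul_zero]
    · rw [zero_mul]
    · refine ContinuousLinearMap.ext fun v => ?_
      rw [mapp, hP, hO]
      simp
    · refine ContinuousLinearMap.ext fun v => ?_
      rw [mapp, hP, hO]
      simp
    · rw [zero_mul]
    · rw [mul_zero]
  obtain ⟨J, hJ⟩ : ∃ J : (E →L[ℝ] E) →ₗ[ℝ] ((E × ℝ) →L[ℝ] (E × ℝ)), ∀ m v,
      J m v = (m v.1, 0) := by
    refine ⟨{ toFun := fun m => m.comp (ContinuousLinearMap.fst ℝ E ℝ) |>.prod 0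
              map_add' := fun m n => ?_
              map_smul' := fun c m => ?_ }, fun m v => rfl⟩
    · refine ContinuousLinearMap.ext fun v => ?_
      simp
    · refine ContinuousLinearMap.ext fun v => ?_
      simp
  have b11 : ∀ γ, P * hom hol γ * P = J (ll hol γ) := by
    intro γ
    refine ContinuousLinearMap.ext fun v => ?_
    rw [mapp, mapp, hP v, hom_apply, hP, hJ, ll_apply]
    simp
  have b00 : ∀ γ, O * hom hol γ * O = O := by
    intro γ
    refine ContinuousLinearMap.ext fun v => ?_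
    rw [mapp, mapp, hO v, hom_apply, hO]
  have b01 : ∀ γ, O * hom hol γ * P = 0 := by
    intro γ
    refine ContinuousLinearMap.ext fun v => ?_
    rw [mapp, mapp, hP v, hom_apply, hO]
    simp
  obtain ⟨d, hd⟩ := hI.conj_limit
  obtain ⟨N, hN1, hN2, a, ha, ha1⟩ := exists_abelian_normal_proj (tau hol) (tau_discrete D hinj x) d
    (fun γ => P * hom hol γ * P + 0 * hom hol γ * 0 + O * hom hol γ * O)
    (fun γ => hd _ (by rw [zero_mul, zero_mul]) (b01 γ) (by rw [mul_zero])) δ (fun _ => 1)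
    (fun n γ => by rw [Units.val_one, one_mul, mul_one]) (by
      have h1 : ∀ n, (P * hom hol (δ n) * P + 0 * hom hol (δ n) * 0 + O * hom hol (δ n) * O) *
          ((1 : ((E × ℝ) →L[ℝ] (E × ℝ))ˣ) : (E × ℝ) →L[ℝ] (E × ℝ)) =
          J (ll hol (δ n)) + O := by
        intro n
        rw [b11, b00, mul_zero, add_zero, Units.val_one, mul_one]
      simp_rw [h1]
      have h2 : Tendsto (fun n => J (ll hol (δ n)) + O) atTop (𝓝 (J 1 + O)) := by
        refine Tendsto.add_const _ ?_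
        have hc : Continuous J := LinearMap.continuous_of_finiteDimensional J
        exact (hc.tendsto 1).comp hlim1
      have h3 : J 1 + O = 1 := by
        refine ContinuousLinearMap.ext fun v => ?_
        show J 1 v + O v = v
        rw [hJ, hO]
        ext1 <;> simp
      rw [h3] at h2
      exact h2) (by
      intro n
      rw [hδ]
      simp only
      rw [map_mul, map_inv]
      intro hcon
      have h1 := inv_mul_eq_one.1 hcon
      rw [hγ1, hγ1] at h1
      exact absurd (g.injective (Subtype.ext h1)) (hφ (Nat.lt_succ_self n)).ne)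
  refine ⟨N, hN1, fun b hb c hc => ?_, a, ha, ?_⟩
  · rw [← map_mul, ← map_mul, ← tau_eq_iff, map_mul, map_mul]
    exact hN2 b hb c hc
  · rw [← tau_one_iff.ne]
    exact ha1

end

section
variable {X Γ E : Type} [TopologicalSpace X] [T2Space X] [SecondCountableTopology X]
  [ConnectedSpace X]
  [Group Γ] [MulAction Γ X] [NormedAddCommGroup E] [NormedSpace ℝ E] [FiniteDimensional ℝ E]
  {dev : X → E} {hol : Γ →* (E ≃ᵃ[ℝ] E)}

theorem proper_or_complete (D : AffData X Γ E dev hol) (hinj : Function.Injective dev)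
    (h3 : finrank ℝ E = 3) (R : ℝ) (hinf : {γ : Γ | ∀ v, ‖lin hol γ v‖ ≤ R * ‖v‖}.Infinite) :
    IsHomeomorph dev := by
  obtain ⟨x⟩ : Nonempty X := inferInstance
  obtain ⟨N, hN, hc, a, ha, ha1⟩ := abelian_of_not_proper D hinj x R hinf
  refine MA.solvable_normal D hinj h3 ⊤ N inferInstance ?_ ?_ ?_
  · intro γ _ b hb
    exact ⟨γ * b * γ⁻¹, hN.conj_mem b hb γ, fun q => rfl⟩
  · have hcomm : ∀ u v : N.map hol, u * v = v * u := by
      rintro ⟨_, b, hb, rfl⟩ ⟨_, c, hc', rfl⟩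
      exact Subtype.ext (hc b hb c hc')
    exact Group.isSolvable_of_comm hcomm
  · refine ⟨a, ha, ?_⟩
    by_contra hcon
    push Not at hcon
    exact ha1 (AffineEquiv.ext hcon)

end

end Pool.Agent.H817.RB
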