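import Pool.Agent.H817.RB.Abel
import Pool.Agent.H817.RB.Plane
import Pool.Agent.H817.MA.Virt
import Pool.Graph.R_seed8.Y449.MK.Sub

/-!
Domain quotients of the affine 3-space with parallel volume and reducible linear holonomy are
complete.
-/

set_option autoImplicit false

namespace Pool.Agent.H817.RB

open Set Filter Topology Module
open Pool.Agent.W689.Mk

section
variable {E : Type} [NormedAddCommGroup E] [NormedSpace ℝ E] [FiniteDimensional ℝ E]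

theorem exists_spl (A B : Submodule ℝ E) (h : IsCompl A B) (hA : finrank ℝ A = 2)
    (hB : finrank ℝ B = 1) : ∃ (i1 : (Fin 2 → ℝ) →ₗ[ℝ] E) (i2 : ℝ →ₗ[ℝ] E)
      (p1 : E →ₗ[ℝ] (Fin 2 → ℝ)) (p2 : E →ₗ[ℝ] ℝ), Spl i1 i2 p1 p2 ∧ (∀ v ∈ A, p2 v = 0) ∧
      (∀ v ∈ B, p1 v = 0) ∧ (∀ u, i1 u ∈ A) ∧ ∀ t, i2 t ∈ B := by
  obtain ⟨eA⟩ : Nonempty (A ≃ₗ[ℝ] (Fin 2 → ℝ)) := by
    refine ⟨LinearEquiv.ofFinrankEq _ _ ?_⟩
    rw [hA]
    simp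
  obtain ⟨eB⟩ : Nonempty (B ≃ₗ[ℝ] ℝ) := by
    refine ⟨LinearEquiv.ofFinrankEq _ _ ?_⟩
    rw [hB]
    simp
  obtain ⟨φ, hφ⟩ : ∃ φ : (A × B) ≃ₗ[ℝ] E, ∀ a b, φ (a, b) = (a : E) + b :=
    ⟨A.prodEquivOfIsCompl B h, fun a b => by simp⟩
  have hφA : ∀ a : A, φ.symm (a : E) = (a, 0) := by
    intro a
    rw [LinearEquiv.symm_apply_eq, hφ]
    simp
  have hφB : ∀ b : B, φ.symm (b : E) = (0, b) := by
    intro b
    rw [LinearEquiv.symm_apply_eq, hφ]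
    simp
  refine ⟨A.subtype.comp (eA.symm : (Fin 2 → ℝ) →ₗ[ℝ] A), B.subtype.comp (eB.symm : ℝ →ₗ[ℝ] B),
    (eA : A →ₗ[ℝ] (Fin 2 → ℝ)).comp ((LinearMap.fst ℝ A B).comp (φ.symm : E →ₗ[ℝ] A × B)),
    (eB : B →ₗ[ℝ] ℝ).comp ((LinearMap.snd ℝ A B).comp (φ.symm : E →ₗ[ℝ] A × B)),
    ⟨fun v => ?_, fun u => ?_, fun t => ?_, fun t => ?_, fun u => ?_⟩, fun v hv => ?_,
    fun v hv => ?_, fun u => ?_, fun t => ?_⟩
  · have h1 : φ (φ.symm v) = v := φ.apply_symm_apply v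
    have h2 : φ.symm v = ((φ.symm v).1, (φ.symm v).2) := rfl
    rw [h2, hφ] at h1
    simpa using h1
  · simp [hφA]
  · simp [hφB]
  · simp [hφB]
  · simp [hφA]
  · have := hφA ⟨v, hv⟩
    simp only at this
    simp [this]
  · have := hφB ⟨v, hv⟩
    simp only at this
    simp [this]
  · simp
  · simp

end

section
variable {X Γ E : Type} [TopologicalSpace X] [T2Space X] [SecondCountableTopology X]
  [ConnectedSpace X]
  [Group Γ] [MulAction Γ X] [NormedAddCommGroup E] [NormedSpace ℝ E] [FiniteDimensional ℝ E]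
  {dev : X → E} {hol : Γ →* (E ≃ᵃ[ℝ] E)}

theorem reducible_complete (D : AffData X Γ E dev hol) (hinj : Function.Injective dev)
    (h3 : finrank ℝ E = 3) (K : Subgroup Γ) (hK : K.FiniteIndex) (W : Submodule ℝ E)
    (hW0 : W ≠ ⊥) (hW1 : W ≠ ⊤) (hinv : ∀ γ ∈ K, ∀ w ∈ W, lin hol γ w ∈ W) :
    IsHomeomorph dev := by
  classical
  obtain ⟨x⟩ : Nonempty X := inferInstance
  have DK := Pool.Agent.Y449.MK.restrict D K hK
  obtain ⟨Z, hZ⟩ := W.exists_isCompl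
  have hdim : finrank ℝ W + finrank ℝ Z = 3 := by
    rw [← h3]
    exact Submodule.finrank_add_eq_of_isCompl hZ
  have hWp : 0 < finrank ℝ W := Nat.pos_of_ne_zero fun h => hW0 (Submodule.finrank_eq_zero.1 h)
  have hWl : finrank ℝ W < 3 := by
    rw [← h3]
    exact Submodule.finrank_lt hW1
  obtain ⟨i1, i2, p1, p2, S, hcase⟩ : ∃ (i1 : (Fin 2 → ℝ) →ₗ[ℝ] E) (i2 : ℝ →ₗ[ℝ] E)
      (p1 : E →ₗ[ℝ] (Fin 2 → ℝ)) (p2 : E →ₗ[ℝ] ℝ), Spl i1 i2 p1 p2 ∧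
      ((∀ (γ : K) u, p2 (lin (hol.comp K.subtype) γ (i1 u)) = 0) ∨
        (∀ (γ : K) t, p1 (lin (hol.comp K.subtype) γ (i2 t)) = 0)) := by
    obtain h2 | h1 : finrank ℝ W = 2 ∨ finrank ℝ W = 1 := by omega
    · obtain ⟨i1, i2, p1, p2, S, ha, hb, hc, hd⟩ := exists_spl W Z hZ h2 (by omega)
      exact ⟨i1, i2, p1, p2, S, Or.inl fun γ u => ha _ (hinv γ γ.2 _ (hc u))⟩
    · obtain ⟨i1, i2, p1, p2, S, ha, hb, hc, hd⟩ := exists_spl Z W hZ.symm (by omega) h1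
      exact ⟨i1, i2, p1, p2, S, Or.inr fun γ t => hb _ (hinv γ γ.2 _ (hd t))⟩
  by_cases hinf : ∃ R : ℝ, {γ : K | nsq (blk (hol.comp K.subtype) i1 p1 γ) ≤
      R * |(blk (hol.comp K.subtype) i1 p1 γ).det|}.Infinite
  · obtain ⟨R, hR⟩ := hinf
    obtain ⟨N, hN, hc, a, ha, ha1⟩ := abelian_of_block DK hinj x S hcase R hR
    refine MA.solvable_normal D hinj h3 K (N.map K.subtype) hK ?_ ?_ ?_
    · rintro γ hγ _ ⟨b, hb, rfl⟩
      refine ⟨γ * (K.subtype b) * γ⁻¹, ⟨⟨γ, hγ⟩ * b * ⟨γ, hγ⟩⁻¹, hN.conj_mem b hb ⟨γ, hγ⟩, rfl⟩,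
        fun q => rfl⟩
    · have hcomm : ∀ u v : (N.map K.subtype).map hol, u * v = v * u := by
        rintro ⟨_, _, ⟨b, hb, rfl⟩, rfl⟩ ⟨_, _, ⟨c, hc', rfl⟩, rfl⟩
        exact Subtype.ext (hc b hb c hc')
      exact Group.isSolvable_of_comm hcomm
    · refine ⟨K.subtype a, ⟨a, ha, rfl⟩, ?_⟩
      by_contra hcon
      push Not at hcon
      exact ha1 (AffineEquiv.ext hcon)
  · push Not at hinf
    exact (no_proper_plane DK h3.ge _ (blk_one S) (blk_mul S hcase) hinf).elim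

end

end Pool.Agent.H817.RB
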