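import Mathlib

/-!
Discrete groups and contracted parts of their representations: elements whose graded part is near
the identity give a nontrivial abelian normal subgroup.
-/

set_option autoImplicit false

namespace Pool.Agent.H817.RB

open Set Filter Topology
open scoped commutatorElement

section
variable {A : Type*} [NormedRing A] [NormedAlgebra ℝ A] [NormOneClass A]
  {K : Type*} [Group K]

omit [NormedAlgebra ℝ A] in
theorem inv_le_two (a : Aˣ) (h : ‖(a : A) - 1‖ ≤ 1 / 16) : ‖((a⁻¹ : Aˣ) : A)‖ ≤ 2 := by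
  have h1 : ((a⁻¹ : Aˣ) : A) = 1 - ((a : A) - 1) * ((a⁻¹ : Aˣ) : A) := by
    rw [sub_mul, Units.mul_inv, one_mul]
    abel
  have h2 : ‖((a⁻¹ : Aˣ) : A)‖ ≤ 1 + 1 / 16 * ‖((a⁻¹ : Aˣ) : A)‖ := by
    conv_lhs => rw [h1]
    refine (norm_sub_le _ _).trans ?_
    rw [norm_one]
    refine add_le_add le_rfl ((norm_mul_le _ _).trans ?_)
    exact mul_le_mul_of_nonneg_right h (norm_nonneg _)
  linarith

omit [NormedAlgebra ℝ A] in
theorem comm_le (a b : Aˣ) (ha : ‖(a : A) - 1‖ ≤ 1 / 16) (hb : ‖(b : A) - 1‖ ≤ 1 / 16) :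
    ‖((⁅a, b⁆ : Aˣ) : A) - 1‖ ≤ ‖(b : A) - 1‖ / 2 := by
  have h1 : ((⁅a, b⁆ : Aˣ) : A) - 1 =
      (((a : A) - 1) * ((b : A) - 1) - ((b : A) - 1) * ((a : A) - 1)) *
        ((a⁻¹ : Aˣ) : A) * ((b⁻¹ : Aˣ) : A) := by
    have e1 : ((a : A) - 1) * ((b : A) - 1) - ((b : A) - 1) * ((a : A) - 1) =
        (a : A) * b - b * a := by noncomm_ring
    rw [e1, sub_mul, sub_mul, commutatorElement_def]
    have e2 : (b : A) * a * ((a⁻¹ : Aˣ) : A) * ((b⁻¹ : Aˣ) : A) = 1 := by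
      rw [mul_assoc (b : A), Units.mul_inv, mul_one, Units.mul_inv]
    rw [e2]
    simp only [Units.val_mul]
  rw [h1]
  have ia := inv_le_two a ha
  have ib := inv_le_two b hb
  have h2 : ‖((a : A) - 1) * ((b : A) - 1) - ((b : A) - 1) * ((a : A) - 1)‖ ≤
      1 / 8 * ‖(b : A) - 1‖ := by
    refine (norm_sub_le _ _).trans ?_
    have h3 := norm_mul_le ((a : A) - 1) ((b : A) - 1)
    have h4 := norm_mul_le ((b : A) - 1) ((a : A) - 1)
    have h5 : ‖(a : A) - 1‖ * ‖(b : A) - 1‖ ≤ 1 / 16 * ‖(b : A) - 1‖ :=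
      mul_le_mul_of_nonneg_right ha (norm_nonneg _)
    linarith [mul_comm ‖(a : A) - 1‖ ‖(b : A) - 1‖]
  calc ‖(((a : A) - 1) * ((b : A) - 1) - ((b : A) - 1) * ((a : A) - 1)) *
        ((a⁻¹ : Aˣ) : A) * ((b⁻¹ : Aˣ) : A)‖
      ≤ ‖((a : A) - 1) * ((b : A) - 1) - ((b : A) - 1) * ((a : A) - 1)‖ *
        ‖((a⁻¹ : Aˣ) : A)‖ * ‖((b⁻¹ : Aˣ) : A)‖ :=
        (norm_mul_le _ _).trans (mul_le_mul_of_nonneg_right (norm_mul_le _ _) (norm_nonneg _))
    _ ≤ (1 / 8 * ‖(b : A) - 1‖) * 2 * 2 := by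
        have hn := norm_nonneg ((b : A) - 1)
        refine mul_le_mul (mul_le_mul h2 ia (norm_nonneg _) ?_) ib (norm_nonneg _) ?_ <;> positivity
    _ = ‖(b : A) - 1‖ / 2 := by ring

/-- an element commuting with a finite set of elements with graded part near one -/
theorem exists_central (τ : K →* Aˣ) (hd : ∃ r : ℝ, 0 < r ∧ ∀ γ, ‖(τ γ : A) - 1‖ < r → τ γ = 1)
    (d : ℕ → Aˣ) (gr : K → A)
    (F : Finset K) (hF : ∀ x ∈ F, Tendsto (fun n => (d n : A) * τ x * ((d n)⁻¹ : Aˣ)) atTop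
      (𝓝 (gr x)))
    (hF1 : ∀ x ∈ F, ‖gr x - 1‖ < 1 / 16) (hne : ∃ x ∈ F, τ x ≠ 1) :
    ∃ c ∈ Subgroup.closure (F : Set K), τ c ≠ 1 ∧ ∀ x ∈ F, τ x * τ c = τ c * τ x := by
  obtain ⟨n, hn⟩ : ∃ n, ∀ x ∈ F, ‖(d n : A) * τ x * ((d n)⁻¹ : Aˣ) - 1‖ < 1 / 16 := by
    have h1 : ∀ᶠ n in atTop, ∀ x ∈ F, ‖(d n : A) * τ x * ((d n)⁻¹ : Aˣ) - 1‖ < 1 / 16 := by
      rw [Finset.eventually_all]
      intro x hx
      have h2 := ((hF x hx).sub_const 1).norm
      exact h2.eventually_lt_const (hF1 x hx)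
    exact h1.exists
  obtain ⟨τ', hτ'⟩ : ∃ τ' : K →* Aˣ, ∀ γ, τ' γ = d n * τ γ * (d n)⁻¹ :=
    ⟨(MulAut.conj (d n)).toMonoidHom.comp τ, fun γ => rfl⟩
  have hn' : ∀ x ∈ F, ‖(τ' x : A) - 1‖ < 1 / 16 := by
    intro x hx
    rw [hτ']
    simpa using hn x hx
  have hone : ∀ γ, τ' γ = 1 ↔ τ γ = 1 := by
    intro γ
    rw [hτ']
    constructor
    · intro h
      have : (d n)⁻¹ * (d n * τ γ * (d n)⁻¹) * d n = (d n)⁻¹ * 1 * d n := by rw [h]
      simpa [mul_assoc] using this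
    · intro h
      rw [h]
      simp
  obtain ⟨r, hr, hr'⟩ : ∃ r : ℝ, 0 < r ∧ ∀ γ, ‖(τ' γ : A) - 1‖ < r → τ γ = 1 := by
    obtain ⟨r0, hr0, h0⟩ := hd
    obtain ⟨C, hC⟩ : ∃ C : ℝ, C = ‖(((d n)⁻¹ : Aˣ) : A)‖ * ‖(d n : A)‖ + 1 := ⟨_, rfl⟩
    have hC0 : 0 < C := by rw [hC]; positivity
    refine ⟨r0 / C, div_pos hr0 hC0, fun γ hγ => h0 γ ?_⟩
    have h1 : (τ γ : A) - 1 = (((d n)⁻¹ : Aˣ) : A) * ((τ' γ : A) - 1) * (d n : A) := by
      rw [hτ', mul_sub, sub_mul, mul_one, Units.inv_mul]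
      simp only [Units.val_mul]
      have : (((d n)⁻¹ : Aˣ) : A) * ((d n : A) * (τ γ : A) * (((d n)⁻¹ : Aˣ) : A)) * (d n : A) =
          ((((d n)⁻¹ : Aˣ) : A) * (d n : A)) * (τ γ : A) * ((((d n)⁻¹ : Aˣ) : A) * (d n : A)) := by
        noncomm_ring
      rw [this, Units.inv_mul, one_mul, mul_one]
    rw [h1]
    calc ‖(((d n)⁻¹ : Aˣ) : A) * ((τ' γ : A) - 1) * (d n : A)‖
        ≤ ‖(((d n)⁻¹ : Aˣ) : A)‖ * ‖(τ' γ : A) - 1‖ * ‖(d n : A)‖ :=
          (norm_mul_le _ _).trans (mul_le_mul_of_nonneg_right (norm_mul_le _ _) (norm_nonneg _))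
      _ = ‖(τ' γ : A) - 1‖ * (‖(((d n)⁻¹ : Aˣ) : A)‖ * ‖(d n : A)‖) := by ring
      _ ≤ ‖(τ' γ : A) - 1‖ * C := by
          refine mul_le_mul_of_nonneg_left ?_ (norm_nonneg _)
          rw [hC]; linarith
      _ < r0 := by rwa [lt_div_iff₀ hC0] at hγ
  obtain ⟨S, hS⟩ : ∃ S : Set ℝ, S = {t | ∃ c ∈ Subgroup.closure (F : Set K), τ c ≠ 1 ∧
    ‖(τ' c : A) - 1‖ < 1 / 16 ∧ t = ‖(τ' c : A) - 1‖} := ⟨_, rfl⟩
  have hSne : S.Nonempty := by
    obtain ⟨x, hx, hx1⟩ := hne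
    refine ⟨‖(τ' x : A) - 1‖, ?_⟩
    rw [hS]
    exact ⟨x, Subgroup.subset_closure hx, hx1, hn' x hx, rfl⟩
  have hSb : ∀ t ∈ S, r ≤ t := by
    intro t ht
    rw [hS] at ht
    obtain ⟨c, -, hc1, -, rfl⟩ := ht
    by_contra hcon
    exact hc1 (hr' c (not_le.1 hcon))
  have hm : r ≤ sInf S := le_csInf hSne hSb
  obtain ⟨t, htS, ht⟩ := exists_lt_of_csInf_lt hSne (show sInf S < 2 * sInf S by linarith)
  rw [hS] at htS
  obtain ⟨c, hc, hc1, hc2, rfl⟩ := htS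
  refine ⟨c, hc, hc1, fun x hx => ?_⟩
  have h1 : ‖((⁅τ' x, τ' c⁆ : Aˣ) : A) - 1‖ ≤ ‖(τ' c : A) - 1‖ / 2 :=
    comm_le _ _ (hn' x hx).le hc2.le
  rw [← map_commutatorElement] at h1
  have h2 : τ ⁅x, c⁆ = 1 := by
    by_contra hcon
    have h3 : ‖(τ' ⁅x, c⁆ : A) - 1‖ ∈ S := by
      rw [hS]
      refine ⟨⁅x, c⁆, ?_, hcon, ?_, rfl⟩
      · have hxm : x ∈ Subgroup.closure (F : Set K) := Subgroup.subset_closure hx
        rw [commutatorElement_def]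
        exact mul_mem (mul_mem (mul_mem hxm hc) (inv_mem hxm)) (inv_mem hc)
      · linarith [norm_nonneg ((τ' c : A) - 1)]
    have h4 := csInf_le ⟨r, hSb⟩ h3
    linarith
  rw [map_commutatorElement, commutatorElement_eq_one_iff_mul_comm] at h2
  exact h2

theorem exists_abelian_normal [FiniteDimensional ℝ A] (τ : K →* Aˣ)
    (hd : ∃ r : ℝ, 0 < r ∧ ∀ γ, ‖(τ γ : A) - 1‖ < r → τ γ = 1)
    (d : ℕ → Aˣ) (gr : K → A)
    (hgr : ∀ x, Tendsto (fun n => (d n : A) * τ x * ((d n)⁻¹ : Aˣ)) atTop (𝓝 (gr x)))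
    (hne : ∀ ε : ℝ, 0 < ε → ∃ x, ‖gr x - 1‖ < ε ∧ τ x ≠ 1) :
    ∃ N : Subgroup K, N.Normal ∧ (∀ x ∈ N, ∀ y ∈ N, τ x * τ y = τ y * τ x) ∧ ∃ x ∈ N, τ x ≠ 1 := by
  classical
  -- the graded part is multiplicative
  have hmul : ∀ x y, gr (x * y) = gr x * gr y := by
    intro x y
    refine tendsto_nhds_unique (hgr (x * y)) (((hgr x).mul (hgr y)).congr fun n => ?_)
    rw [map_mul, Units.val_mul]
    have : (d n : A) * (τ x : A) * ((d n)⁻¹ : Aˣ) * ((d n : A) * (τ y : A) * ((d n)⁻¹ : Aˣ)) =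
        (d n : A) * (τ x : A) * (((d n)⁻¹ : Aˣ) * (d n : A)) * (τ y : A) * ((d n)⁻¹ : Aˣ) := by
      noncomm_ring
    rw [this, Units.inv_mul, mul_one]
    noncomm_ring
  have hone : gr 1 = 1 := by
    refine tendsto_nhds_unique (hgr 1) (tendsto_const_nhds.congr fun n => ?_)
    rw [map_one, Units.val_one, mul_one, Units.mul_inv]
  -- commutants
  obtain ⟨Cm, hCm⟩ : ∃ Cm : ℝ → Submodule ℝ A, ∀ ε T, T ∈ Cm ε ↔
      ∀ x, ‖gr x - 1‖ < ε → T * τ x = τ x * T := by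
    refine ⟨fun ε => { carrier := {T | ∀ x, ‖gr x - 1‖ < ε → T * τ x = τ x * T}
                       zero_mem' := fun x _ => by rw [zero_mul, mul_zero]
                       add_mem' := fun {S T} hS hT x hx => by
                         rw [add_mul, mul_add, hS x hx, hT x hx]
                       smul_mem' := fun c T hT x hx => by
                         rw [smul_mul_assoc, mul_smul_comm, hT x hx] }, fun ε T => Iff.rfl⟩
  have hmono : ∀ ε ε' : ℝ, ε' ≤ ε → Cm ε ≤ Cm ε' := by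
    intro ε ε' h T hT
    rw [hCm] at hT ⊢
    exact fun x hx => hT x (hx.trans_le h)
  -- a value with maximal commutant
  obtain ⟨ε0, hε0, hε1, hmax⟩ : ∃ ε0 : ℝ, 0 < ε0 ∧ ε0 ≤ 1 / 16 ∧ ∀ ε : ℝ, 0 < ε → ε ≤ ε0 →
      Cm ε = Cm ε0 := by
    obtain ⟨P, hP⟩ : ∃ P : ℕ → Prop, P = fun k => ∃ ε : ℝ, 0 < ε ∧ ε ≤ 1 / 16 ∧
      Module.finrank ℝ (Cm ε) = k := ⟨_, rfl⟩
    have hbd : ∀ k, P k → k ≤ Module.finrank ℝ A := by
      rw [hP]
      rintro k ⟨ε, -, -, rfl⟩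
      exact Submodule.finrank_le _
    have hex : ∃ k, P k := by
      rw [hP]
      exact ⟨_, 1 / 16, by norm_num, le_rfl, rfl⟩
    obtain ⟨k, hk⟩ := hex
    have h1 := Nat.findGreatest_spec (hbd k hk) hk
    rw [hP] at h1
    obtain ⟨ε0, hε0, hε1, h2⟩ := h1
    refine ⟨ε0, hε0, hε1, fun ε hε hle => (Submodule.eq_of_le_of_finrank_le (hmono _ _ hle) ?_).symm⟩
    have h3 : P (Module.finrank ℝ (Cm ε)) := by
      rw [hP]
      exact ⟨ε, hε, hle.trans hε1, rfl⟩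
    rw [h2]
    have h4 := Nat.le_findGreatest (P := P) (hbd _ h3) h3
    rw [hP] at h4
    exact h4
  -- a finite set with the same commutant
  obtain ⟨x0, hx0, hx01⟩ := hne ε0 hε0
  obtain ⟨F, hF, hx0F, hFc⟩ : ∃ F : Finset K, (∀ x ∈ F, ‖gr x - 1‖ < ε0) ∧ x0 ∈ F ∧
      ∀ T : A, (∀ x ∈ F, T * τ x = τ x * T) → T ∈ Cm ε0 := by
    obtain ⟨s, hs⟩ : ∃ s : Set A, s = (fun x : K => (τ x : A)) '' {x | ‖gr x - 1‖ < ε0} := ⟨_, rfl⟩
    obtain ⟨t, ht, hts⟩ : ∃ t : Finset A, (t : Set A) ⊆ s ∧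
        Submodule.span ℝ (t : Set A) = Submodule.span ℝ s := by
      obtain ⟨t, ht1, ht2⟩ := (Submodule.fg_span_iff_fg_span_finset_subset s).1
        (IsNoetherian.noetherian (Submodule.span ℝ s))
      exact ⟨t, ht1, ht2.symm⟩
    have hch : ∀ a ∈ t, ∃ x : K, ‖gr x - 1‖ < ε0 ∧ (τ x : A) = a := by
      intro a ha
      have := ht ha
      rw [hs] at this
      obtain ⟨x, hx, rfl⟩ := this
      exact ⟨x, hx, rfl⟩
    choose! g hg1 hg2 using hch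
    refine ⟨insert x0 (t.image g), ?_, Finset.mem_insert_self _ _, ?_⟩
    · intro x hx
      rw [Finset.mem_insert, Finset.mem_image] at hx
      rcases hx with rfl | ⟨a, ha, rfl⟩
      · exact hx0
      · exact hg1 a ha
    · intro T hT
      rw [hCm]
      have h1 : ∀ a ∈ Submodule.span ℝ (t : Set A), T * a = a * T := by
        intro a ha
        induction ha using Submodule.span_induction with
        | mem a ha =>
          rw [← hg2 a ha]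
          exact hT _ (Finset.mem_insert_of_mem (Finset.mem_image_of_mem g ha))
        | zero => rw [mul_zero, zero_mul]
        | add a b _ _ ha hb => rw [mul_add, add_mul, ha, hb]
        | smul c a _ ha => rw [mul_smul_comm, smul_mul_assoc, ha]
      intro x hx
      apply h1
      rw [hts]
      apply Submodule.subset_span
      rw [hs]
      exact ⟨x, hx, rfl⟩
  obtain ⟨c, hc, hc1, hcc⟩ := exists_central τ hd d gr F (fun x _ => hgr x)
    (fun x hx => (hF x hx).trans_le hε1) ⟨x0, hx0F, hx01⟩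
  -- the normal subgroup
  obtain ⟨N, hN⟩ : ∃ N : Subgroup K, ∀ x, x ∈ N ↔ ((τ x : A) ∈ Cm ε0 ∧
      ∀ T ∈ Cm ε0, T * τ x = τ x * T) := by
    refine ⟨{ carrier := {x | (τ x : A) ∈ Cm ε0 ∧ ∀ T ∈ Cm ε0, T * τ x = τ x * T}
              one_mem' := ?_
              mul_mem' := ?_
              inv_mem' := ?_ }, fun x => Iff.rfl⟩
    · rintro x y ⟨hx1, hx2⟩ ⟨hy1, hy2⟩
      refine ⟨?_, fun T hT => ?_⟩
      · rw [hCm] at hx1 hy1 ⊢
        intro z hz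
        rw [map_mul, Units.val_mul, mul_assoc, hy1 z hz, ← mul_assoc, hx1 z hz, mul_assoc]
      · rw [map_mul, Units.val_mul, ← mul_assoc, hx2 T hT, mul_assoc, hy2 T hT, mul_assoc]
    · refine ⟨?_, fun T hT => ?_⟩
      · rw [hCm]
        intro z _
        rw [map_one, Units.val_one, one_mul, mul_one]
      · rw [map_one, Units.val_one, one_mul, mul_one]
    · rintro x ⟨hx1, hx2⟩
      have hinv : ∀ T : A, T * τ x = τ x * T → T * τ x⁻¹ = τ x⁻¹ * T := by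
        intro T hT
        have h1 : ((τ x)⁻¹ : Aˣ) * (T * (τ x : A)) * ((τ x)⁻¹ : Aˣ) =
            ((τ x)⁻¹ : Aˣ) * ((τ x : A) * T) * ((τ x)⁻¹ : Aˣ) := by rw [hT]
        have e1 : ((τ x)⁻¹ : Aˣ) * (T * (τ x : A)) * ((τ x)⁻¹ : Aˣ) =
            (((τ x)⁻¹ : Aˣ) : A) * T * ((τ x : A) * ((τ x)⁻¹ : Aˣ)) := by noncomm_ring
        have e2 : ((τ x)⁻¹ : Aˣ) * ((τ x : A) * T) * ((τ x)⁻¹ : Aˣ) =
            ((((τ x)⁻¹ : Aˣ) : A) * (τ x : A)) * T * ((τ x)⁻¹ : Aˣ) := by noncomm_ring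
        rw [e1, e2, Units.mul_inv, Units.inv_mul, mul_one, one_mul] at h1
        rw [map_inv]
        exact h1.symm
      refine ⟨?_, fun T hT => hinv T (hx2 T hT)⟩
      rw [hCm] at hx1 ⊢
      intro z hz
      exact (hinv _ (hx1 z hz).symm).symm
  refine ⟨N, ⟨?_⟩, ?_, c, ?_, hc1⟩
  · -- normality
    have hconj : ∀ g : K, ∀ T ∈ Cm ε0, (τ g : A) * T * (τ g⁻¹ : Aˣ) ∈ Cm ε0 := by
      intro g T hT
      obtain ⟨ε, hε, hle, h1⟩ : ∃ ε : ℝ, 0 < ε ∧ ε ≤ ε0 ∧ ∀ x, ‖gr x - 1‖ < ε →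
          ‖gr (g⁻¹ * x * g) - 1‖ < ε0 := by
        obtain ⟨C, hC⟩ : ∃ C : ℝ, C = ‖gr g⁻¹‖ * ‖gr g‖ + 1 := ⟨_, rfl⟩
        have hC0 : 0 < C := by rw [hC]; positivity
        refine ⟨min ε0 (ε0 / C), lt_min hε0 (div_pos hε0 hC0), min_le_left _ _, fun x hx => ?_⟩
        have h2 : gr (g⁻¹ * x * g) - 1 = gr g⁻¹ * (gr x - 1) * gr g := by
          have h3 : gr g⁻¹ * gr g = 1 := by rw [← hmul, inv_mul_cancel, hone]
          rw [hmul, hmul, mul_sub, sub_mul, mul_one, h3]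
        rw [h2]
        calc ‖gr g⁻¹ * (gr x - 1) * gr g‖
            ≤ ‖gr g⁻¹‖ * ‖gr x - 1‖ * ‖gr g‖ :=
              (norm_mul_le _ _).trans (mul_le_mul_of_nonneg_right (norm_mul_le _ _) (norm_nonneg _))
          _ = ‖gr x - 1‖ * (‖gr g⁻¹‖ * ‖gr g‖) := by ring
          _ ≤ ‖gr x - 1‖ * C := by
              refine mul_le_mul_of_nonneg_left ?_ (norm_nonneg _)
              rw [hC]; linarith
          _ < ε0 := by
              have := hx.trans_le (min_le_right _ _)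
              rwa [lt_div_iff₀ hC0] at this
      rw [← hmax ε hε hle, hCm]
      intro x hx
      have h2 := (hCm ε0 T).1 hT _ (h1 x hx)
      rw [map_mul, map_mul, Units.val_mul, Units.val_mul] at h2
      have h3 : (τ g : A) * (T * ((τ g⁻¹ : A) * (τ x : A) * (τ g : A))) * (τ g⁻¹ : A) =
          (τ g : A) * (((τ g⁻¹ : A) * (τ x : A) * (τ g : A)) * T) * (τ g⁻¹ : A) := by rw [h2]
      have hgg : (τ g : A) * (τ g⁻¹ : A) = 1 := by rw [← Units.val_mul, ← map_mul,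
        mul_inv_cancel, map_one, Units.val_one]
      have e1 : (τ g : A) * (T * ((τ g⁻¹ : A) * (τ x : A) * (τ g : A))) * (τ g⁻¹ : A) =
          (τ g : A) * T * (τ g⁻¹ : A) * (τ x : A) * ((τ g : A) * (τ g⁻¹ : A)) := by noncomm_ring
      have e2 : (τ g : A) * (((τ g⁻¹ : A) * (τ x : A) * (τ g : A)) * T) * (τ g⁻¹ : A) =
          ((τ g : A) * (τ g⁻¹ : A)) * (τ x : A) * ((τ g : A) * T * (τ g⁻¹ : A)) := by
        noncomm_ring
      rw [e1, e2, hgg, mul_one, one_mul] at h3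
      exact h3
    intro x hx g
    rw [hN] at hx ⊢
    obtain ⟨hx1, hx2⟩ := hx
    refine ⟨?_, fun T hT => ?_⟩
    · rw [map_mul, map_mul, Units.val_mul, Units.val_mul]
      exact hconj g _ hx1
    · have h1 := hx2 _ (hconj g⁻¹ T hT)
      rw [inv_inv] at h1
      have hgg : (τ g : A) * (τ g⁻¹ : A) = 1 := by rw [← Units.val_mul, ← map_mul,
        mul_inv_cancel, map_one, Units.val_one]
      have h3 : (τ g : A) * ((τ g⁻¹ : A) * T * (τ g : A) * (τ x : A)) * (τ g⁻¹ : A) =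
          (τ g : A) * ((τ x : A) * ((τ g⁻¹ : A) * T * (τ g : A))) * (τ g⁻¹ : A) := by rw [h1]
      have e1 : (τ g : A) * ((τ g⁻¹ : A) * T * (τ g : A) * (τ x : A)) * (τ g⁻¹ : A) =
          ((τ g : A) * (τ g⁻¹ : A)) * T * ((τ g : A) * (τ x : A) * (τ g⁻¹ : A)) := by
        noncomm_ring
      have e2 : (τ g : A) * ((τ x : A) * ((τ g⁻¹ : A) * T * (τ g : A))) * (τ g⁻¹ : A) =
          ((τ g : A) * (τ x : A) * (τ g⁻¹ : A)) * T * ((τ g : A) * (τ g⁻¹ : A)) := by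
        noncomm_ring
      rw [e1, e2, hgg, mul_one, one_mul] at h3
      rw [map_mul, map_mul, Units.val_mul, Units.val_mul]
      exact h3
  · intro x hx y hy
    rw [hN] at hx hy
    exact Units.ext (hy.2 _ hx.1)
  · rw [hN]
    have hcm : (τ c : A) ∈ Cm ε0 := hFc _ fun x hx => by
      have := hcc x hx
      rw [← Units.val_mul, ← Units.val_mul, this]
    refine ⟨hcm, fun T hT => ?_⟩
    -- T commutes with all elements of the closure of F
    have h1 : ∀ x ∈ Subgroup.closure (F : Set K), T * τ x = τ x * T := by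
      intro x hx
      induction hx using Subgroup.closure_induction with
      | mem x hx => exact (hCm ε0 T).1 hT x (hF x hx)
      | one => rw [map_one, Units.val_one, one_mul, mul_one]
      | mul x y _ _ hx hy =>
        rw [map_mul, Units.val_mul, ← mul_assoc, hx, mul_assoc, hy, mul_assoc]
      | inv x _ hx =>
        have h1 : ((τ x)⁻¹ : Aˣ) * (T * (τ x : A)) * ((τ x)⁻¹ : Aˣ) =
            ((τ x)⁻¹ : Aˣ) * ((τ x : A) * T) * ((τ x)⁻¹ : Aˣ) := by rw [hx]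
        have e1 : ((τ x)⁻¹ : Aˣ) * (T * (τ x : A)) * ((τ x)⁻¹ : Aˣ) =
            (((τ x)⁻¹ : Aˣ) : A) * T * ((τ x : A) * ((τ x)⁻¹ : Aˣ)) := by noncomm_ring
        have e2 : ((τ x)⁻¹ : Aˣ) * ((τ x : A) * T) * ((τ x)⁻¹ : Aˣ) =
            ((((τ x)⁻¹ : Aˣ) : A) * (τ x : A)) * T * ((τ x)⁻¹ : Aˣ) := by noncomm_ring
        rw [e1, e2, Units.mul_inv, Units.inv_mul, mul_one, one_mul] at h1
        rw [map_inv]
        exact h1.symm
    exact h1 c hc

theorem exists_abelian_normal_proj [FiniteDimensional ℝ A] (τ : K →* Aˣ)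
    (hd : ∃ r : ℝ, 0 < r ∧ ∀ γ, ‖(τ γ : A) - 1‖ < r → τ γ = 1)
    (d : ℕ → Aˣ) (gr : K → A)
    (hgr : ∀ x, Tendsto (fun n => (d n : A) * τ x * ((d n)⁻¹ : Aˣ)) atTop (𝓝 (gr x)))
    (δ : ℕ → K) (U : ℕ → Aˣ) (hU : ∀ n x, (U n : A) * gr x = gr x * U n)
    (hlim : Tendsto (fun n => gr (δ n) * (U n : A)) atTop (𝓝 1)) (hne : ∀ n, τ (δ n) ≠ 1) :
    ∃ N : Subgroup K, N.Normal ∧ (∀ x ∈ N, ∀ y ∈ N, τ x * τ y = τ y * τ x) ∧ ∃ x ∈ N, τ x ≠ 1 := by
  classical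
  by_cases h : ∀ ε : ℝ, 0 < ε → ∃ x, ‖gr x - 1‖ < ε ∧ τ x ≠ 1
  · exact exists_abelian_normal τ hd d gr hgr h
  push Not at h
  obtain ⟨ε, hε, hε'⟩ := h
  have hmul : ∀ x y, gr (x * y) = gr x * gr y := by
    intro x y
    refine tendsto_nhds_unique (hgr (x * y)) (((hgr x).mul (hgr y)).congr fun n => ?_)
    rw [map_mul, Units.val_mul]
    have : (d n : A) * (τ x : A) * ((d n)⁻¹ : Aˣ) * ((d n : A) * (τ y : A) * ((d n)⁻¹ : Aˣ)) =
        (d n : A) * (τ x : A) * (((d n)⁻¹ : Aˣ) * (d n : A)) * (τ y : A) * ((d n)⁻¹ : Aˣ) := by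
      noncomm_ring
    rw [this, Units.inv_mul, mul_one]
    noncomm_ring
  have hone : gr 1 = 1 := by
    refine tendsto_nhds_unique (hgr 1) (tendsto_const_nhds.congr fun n => ?_)
    rw [map_one, Units.val_one, mul_one, Units.mul_inv]
  obtain ⟨a, ha⟩ : ∃ a : ℕ → A, a = fun n => gr (δ n) * (U n : A) := ⟨_, rfl⟩
  obtain ⟨b, hb⟩ : ∃ b : ℕ → A, b = fun n => ((U n)⁻¹ : Aˣ) * gr (δ n)⁻¹ := ⟨_, rfl⟩
  have hab : ∀ n, a n * b n = 1 := by
    intro n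
    rw [ha, hb]
    have : gr (δ n) * (U n : A) * (((U n)⁻¹ : Aˣ) * gr (δ n)⁻¹) =
        gr (δ n) * ((U n : A) * ((U n)⁻¹ : Aˣ)) * gr (δ n)⁻¹ := by noncomm_ring
    change gr (δ n) * (U n : A) * (((U n)⁻¹ : Aˣ) * gr (δ n)⁻¹) = 1
    rw [this, Units.mul_inv, mul_one, ← hmul, mul_inv_cancel, hone]
  have ha1 : Tendsto a atTop (𝓝 1) := by rw [ha]; exact hlim
  have hb1 : Tendsto b atTop (𝓝 1) := by
    have h1 : Tendsto (fun n => ‖a n - 1‖) atTop (𝓝 0) := by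
      have := (ha1.sub_const 1).norm
      rwa [sub_self, norm_zero] at this
    rw [tendsto_iff_norm_sub_tendsto_zero]
    have h2 : ∀ᶠ n in atTop, ‖b n - 1‖ ≤ 2 * ‖a n - 1‖ := by
      filter_upwards [h1.eventually_lt_const (show (0 : ℝ) < 1 / 16 by norm_num)] with n hn
      have e1 : b n - 1 = -((a n - 1) * b n) := by
        rw [sub_mul, hab, one_mul]
        abel
      have e2 : ‖b n‖ ≤ 1 + 1 / 16 * ‖b n‖ := by
        have e3 : b n = 1 - (a n - 1) * b n := by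
          rw [sub_mul, hab, one_mul]
          abel
        conv_lhs => rw [e3]
        refine (norm_sub_le _ _).trans ?_
        rw [norm_one]
        refine add_le_add le_rfl ((norm_mul_le _ _).trans ?_)
        exact mul_le_mul_of_nonneg_right hn.le (norm_nonneg _)
      rw [e1, norm_neg]
      refine (norm_mul_le _ _).trans ?_
      have : ‖b n‖ ≤ 2 := by linarith
      calc ‖a n - 1‖ * ‖b n‖ ≤ ‖a n - 1‖ * 2 := mul_le_mul_of_nonneg_left this (norm_nonneg _)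
        _ = 2 * ‖a n - 1‖ := by ring
    have h3 := h1.const_mul 2
    rw [mul_zero] at h3
    exact squeeze_zero' (Eventually.of_forall fun n => norm_nonneg _) h2 h3
  have hcomm : ∀ g : K, ∀ᶠ n in atTop, τ (δ n) * τ g = τ g * τ (δ n) := by
    intro g
    have h1 : ∀ n, gr ⁅δ n, g⁆ = a n * gr g * b n * gr g⁻¹ := by
      intro n
      rw [commutatorElement_def, hmul, hmul, hmul, ha, hb]
      have hUi : ((U n)⁻¹ : Aˣ) * gr (δ n)⁻¹ = gr (δ n)⁻¹ * ((U n)⁻¹ : Aˣ) := by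
        have h2 := hU n (δ n)⁻¹
        have h3 : ((U n)⁻¹ : Aˣ) * ((U n : A) * gr (δ n)⁻¹) * ((U n)⁻¹ : Aˣ) =
          ((U n)⁻¹ : Aˣ) * (gr (δ n)⁻¹ * (U n : A)) * ((U n)⁻¹ : Aˣ) := by rw [h2]
        have e1 : (((U n)⁻¹ : Aˣ) : A) * ((U n : A) * gr (δ n)⁻¹) * ((U n)⁻¹ : Aˣ) =
          ((((U n)⁻¹ : Aˣ) : A) * (U n : A)) * gr (δ n)⁻¹ * ((U n)⁻¹ : Aˣ) := by noncomm_ring
        have e2 : (((U n)⁻¹ : Aˣ) : A) * (gr (δ n)⁻¹ * (U n : A)) * ((U n)⁻¹ : Aˣ) =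
          (((U n)⁻¹ : Aˣ) : A) * gr (δ n)⁻¹ * ((U n : A) * ((U n)⁻¹ : Aˣ)) := by noncomm_ring
        rw [e1, e2, Units.inv_mul, Units.mul_inv, one_mul, mul_one] at h3
        exact h3.symm
      change gr (δ n) * gr g * gr (δ n)⁻¹ * gr g⁻¹ =
        gr (δ n) * (U n : A) * gr g * (((U n)⁻¹ : Aˣ) * gr (δ n)⁻¹) * gr g⁻¹
      rw [hUi]
      have e3 : gr (δ n) * (U n : A) * gr g = gr (δ n) * gr g * (U n : A) := by
        rw [mul_assoc, hU, ← mul_assoc]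
      rw [e3]
      have e4 : gr (δ n) * gr g * (U n : A) * (gr (δ n)⁻¹ * ((U n)⁻¹ : Aˣ)) * gr g⁻¹ =
          gr (δ n) * gr g * ((U n : A) * gr (δ n)⁻¹) * ((U n)⁻¹ : Aˣ) * gr g⁻¹ := by noncomm_ring
      rw [e4, hU]
      have e5 : gr (δ n) * gr g * (gr (δ n)⁻¹ * (U n : A)) * ((U n)⁻¹ : Aˣ) * gr g⁻¹ =
          gr (δ n) * gr g * gr (δ n)⁻¹ * ((U n : A) * ((U n)⁻¹ : Aˣ)) * gr g⁻¹ := by noncomm_ring
      rw [e5, Units.mul_inv, mul_one]
    have h2 : Tendsto (fun n => gr ⁅δ n, g⁆) atTop (𝓝 1) := by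
      have h3 := ((ha1.mul_const (gr g)).mul hb1).mul_const (gr g⁻¹)
      rw [one_mul, mul_one, ← hmul, mul_inv_cancel, hone] at h3
      exact h3.congr fun n => (h1 n).symm
    have h3 := (h2.sub_const 1).norm
    rw [sub_self, norm_zero] at h3
    filter_upwards [h3.eventually_lt_const hε] with n hn
    have h4 := hε' _ hn
    rw [map_commutatorElement, commutatorElement_eq_one_iff_mul_comm] at h4
    exact h4
  -- spanning set
  obtain ⟨t, ht, hts⟩ : ∃ t : Finset A, (t : Set A) ⊆ range (fun x : K => (τ x : A)) ∧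
      Submodule.span ℝ (t : Set A) = Submodule.span ℝ (range (fun x : K => (τ x : A))) := by
    obtain ⟨t, ht1, ht2⟩ := (Submodule.fg_span_iff_fg_span_finset_subset _).1
      (IsNoetherian.noetherian (Submodule.span ℝ (range (fun x : K => (τ x : A)))))
    exact ⟨t, ht1, ht2.symm⟩
  have hch : ∀ a ∈ t, ∃ x : K, (τ x : A) = a := fun a ha => ht ha
  choose! g hg using hch
  obtain ⟨n, hn⟩ : ∃ n, ∀ a ∈ t, τ (δ n) * τ (g a) = τ (g a) * τ (δ n) := by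
    have : ∀ᶠ n in atTop, ∀ a ∈ t, τ (δ n) * τ (g a) = τ (g a) * τ (δ n) := by
      rw [Finset.eventually_all]
      exact fun a _ => hcomm (g a)
    exact this.exists
  have hall : ∀ x : K, τ (δ n) * τ x = τ x * τ (δ n) := by
    have h1 : ∀ a ∈ Submodule.span ℝ (t : Set A), (τ (δ n) : A) * a = a * τ (δ n) := by
      intro a ha
      induction ha using Submodule.span_induction with
      | mem a ha =>
        have := hn a ha
        rw [← hg a ha, ← Units.val_mul, this, Units.val_mul]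
      | zero => rw [mul_zero, zero_mul]
      | add a b _ _ ha hb => rw [mul_add, add_mul, ha, hb]
      | smul c a _ ha => rw [mul_smul_comm, smul_mul_assoc, ha]
    intro x
    apply Units.ext
    rw [Units.val_mul, Units.val_mul]
    apply h1
    rw [hts]
    exact Submodule.subset_span ⟨x, rfl⟩
  refine ⟨{ carrier := {x | ∀ y, τ x * τ y = τ y * τ x}
            one_mem' := ?_
            mul_mem' := ?_
            inv_mem' := ?_ }, ⟨?_⟩, fun x hx y _ => hx y, δ n, hall, hne n⟩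
  · intro x y hx hy z
    rw [map_mul, mul_assoc, hy, ← mul_assoc, hx, mul_assoc]
  · intro z
    rw [map_one, one_mul, mul_one]
  · intro x hx z
    rw [map_inv]
    exact (((Commute.inv_left_iff (a := τ x) (b := τ z)).2 (hx z)))
  · intro x hx g z
    have hx' : ∀ y, τ x * τ y = τ y * τ x := hx
    rw [map_mul, map_mul, ← hx' g, mul_assoc (τ x), ← map_mul, mul_inv_cancel, map_one, mul_one]
    exact hx' z

end

end Pool.Agent.H817.RB
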